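import Pool.Agent.H44.EQD.Defs
import Pool.Agent.H53.NR.Targets

/-!
# Targets: the binary injection, directed colours
-/

set_option autoImplicit false
set_option linter.unusedVariables false

namespace Pool.Agent.H44.EQD

open Pool.Agent.H68.BP Pool.Agent.H58.SF Pool.Agent.H53.GC Pool.Agent.H53.NR
open Pool.Agent.H44.EQ (ceq TypeClosed Const PolMap TInv BinPol Inj2 ZA JSet Twin sel kap Lift
  T_MIN T_CAS T_CNG T_ALW)
open Classical

/-! ### Configurations -/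

/-- Finite coloured orders whose sets without free pairs are realized embed into `V`. The order of
`W` is given by the injective map `rk`. -/
def T_CFG : Prop :=
  ∀ (σ : Sig) (V X : Type) [LinearOrder V] (𝔸 : Str σ V) (M : ℕ) (c : V → V → X) (N : X)
    (inv : X → X),
    SetD 𝔸 M c N inv → ∀ (W R : Type) [Finite W] [LinearOrder R] (rk : W → R) (d : W → W → X),
      Function.Injective rk → (∀ x y, d y x = inv (d x y)) → (∀ x, d x x = N) →
      (∀ K : Set W, (∀ x ∈ K, ∀ y ∈ K, x ≠ y → d x y ≠ N) →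
        ∃ u : W → V, (∀ x ∈ K, ∀ y ∈ K, u x = u y → x = y) ∧
          ∀ x ∈ K, ∀ y ∈ K, x ≠ y → c (u x) (u y) = d x y) →
      ∃ f : W → V, (∀ x y, rk x < rk y → f x < f y) ∧ ∀ x y, c (f x) (f y) = d x y

/-- Realization of families of types all of whose parts with `M` elements are realized. -/
def T_RLZ : Prop :=
  ∀ (σ : Sig) (V X : Type) [LinearOrder V] (𝔸 : Str σ V) (M : ℕ) (c : V → V → X) (N : X)
    (inv : X → X),
    SetD 𝔸 M c N inv → ∀ (P : Type) [Finite P] (φ : P → P → Option X),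
      (∀ p : Fin M → P, ∃ x : Fin M → V, ∀ a b, ceq c (x a) (x b) = φ (p a) (p b)) →
      ∃ γ : P → V, ∀ p p', ceq c (γ p) (γ p') = φ p p'

/-- A polymorphism, seen through the types, has consistent equalities. -/
def T_EQV : Prop :=
  ∀ (σ : Sig) (V X : Type) [LinearOrder V] (𝔸 : Str σ V) (M : ℕ) (c : V → V → X) (N : X)
    (inv : X → X),
    SetD 𝔸 M c N inv → ∀ (I : Type) (h : (I → V) → (I → V) → Option X), PolMap 𝔸 M c I h →
      (∀ v w, h w v = (h v w).map inv) ∧ ∀ v w z, h v w = none → h v z = h w z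

/-! ### Blocks without common elements -/

/-- Two blocks without common elements which have the same value: free twins. -/
def T_NC1 : Prop :=
  ∀ (σ : Sig) (V X : Type) [LinearOrder V] (𝔸 : Str σ V) (M : ℕ) (c : V → V → X) (N : X)
    (inv : X → X),
    SetD 𝔸 M c N inv → ∀ h : (Fin 6 → V) → (Fin 6 → V) → Option X, PolMap 𝔸 M c (Fin 6) h →
      TInv c h → ∀ z z' : Fin 6 → V, (∀ l l', z l ≠ z' l') → h z z' = none →
      ∃ u u', Twin c N z' u u' ∧ h u u' = none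

/-- Twins with the same value: a constant endomorphism. -/
def T_NC2 : Prop :=
  ∀ (σ : Sig) (V X : Type) [LinearOrder V] (𝔸 : Str σ V) (M : ℕ) (c : V → V → X) (N : X)
    (inv : X → X),
    SetD 𝔸 M c N inv → ∀ h : (Fin 6 → V) → (Fin 6 → V) → Option X, PolMap 𝔸 M c (Fin 6) h →
      TInv c h → ∀ z u u' : Fin 6 → V, Twin c N z u u' → h u u' = none → Const 𝔸

/-- Blocks without common elements have different values. -/
def T_NC : Prop :=
  ∀ (σ : Sig) (V X : Type) [LinearOrder V] (𝔸 : Str σ V) (M : ℕ) (c : V → V → X) (N : X)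
    (inv : X → X),
    SetD 𝔸 M c N inv → ¬ Const 𝔸 → ∀ h : (Fin 6 → V) → (Fin 6 → V) → Option X,
      PolMap 𝔸 M c (Fin 6) h → TInv c h → ∀ z z' : Fin 6 → V, (∀ l l', z l ≠ z' l') →
      h z z' ≠ none

/-! ### The determining positions -/

/-- Chains: if two blocks of the shape `κ`, which differ at the position `l₀`, have the same value,
then all blocks of this shape which differ only there have the same value. -/
def T_CHN : Prop :=
  ∀ (σ : Sig) (V X : Type) [LinearOrder V] (𝔸 : Str σ V) (M : ℕ) (c : V → V → X) (N : X)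
    (inv : X → X),
    SetD 𝔸 M c N inv → ∀ h : (Fin 6 → V) → (Fin 6 → V) → Option X, PolMap 𝔸 M c (Fin 6) h →
      TInv c h → ∀ (κ : Fin 6 → ℕ) (z z' : Fin 6 → V) (l₀ : Fin 6), ZA c N κ z z' →
      h z z' = none → z l₀ ≠ z' l₀ →
      ∀ w w', ZA c N κ w w' → (∀ l, κ l ≠ κ l₀ → w l = w' l) → h w w' = none

/-- Existence of the set of the determining positions. -/
def T_JEX : Prop :=
  ∀ (σ : Sig) (V X : Type) [LinearOrder V] (𝔸 : Str σ V) (M : ℕ) (c : V → V → X) (N : X)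
    (inv : X → X),
    SetD 𝔸 M c N inv → ∀ h : (Fin 6 → V) → (Fin 6 → V) → Option X, PolMap 𝔸 M c (Fin 6) h →
      TInv c h → ∀ κ : Fin 6 → ℕ, ∃ J : Set (Fin 6), (∀ l l', κ l = κ l' → (l ∈ J ↔ l' ∈ J)) ∧
        JSet c N h κ J

/-- There are determining positions. -/
def T_JNE : Prop :=
  ∀ (σ : Sig) (V X : Type) [LinearOrder V] (𝔸 : Str σ V) (M : ℕ) (c : V → V → X) (N : X)
    (inv : X → X),
    SetD 𝔸 M c N inv → ¬ Const 𝔸 → ∀ h : (Fin 6 → V) → (Fin 6 → V) → Option X,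
      PolMap 𝔸 M c (Fin 6) h → TInv c h → ∀ (κ : Fin 6 → ℕ) (J : Set (Fin 6)),
      JSet c N h κ J → J.Nonempty

/-- Two determining positions give binary injections. -/
def T_TWO : Prop :=
  ∀ (σ : Sig) (V X : Type) [LinearOrder V] (𝔸 : Str σ V) (M : ℕ) (c : V → V → X) (N : X)
    (inv : X → X),
    SetD 𝔸 M c N inv → ∀ h : (Fin 6 → V) → (Fin 6 → V) → Option X, PolMap 𝔸 M c (Fin 6) h →
      TInv c h → ∀ (κ : Fin 6 → ℕ) (J : Set (Fin 6)), JSet c N h κ J →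
      ∀ l l', l ∈ J → l' ∈ J → κ l ≠ κ l' → Inj2 𝔸

/-- Blocks with different determining entries have different values. -/
def T_SEP : Prop :=
  ∀ (σ : Sig) (V X : Type) [LinearOrder V] (𝔸 : Str σ V) (M : ℕ) (c : V → V → X) (N : X)
    (inv : X → X),
    SetD 𝔸 M c N inv → ¬ Const 𝔸 → ∀ h : (Fin 6 → V) → (Fin 6 → V) → Option X,
      PolMap 𝔸 M c (Fin 6) h → TInv c h → ∀ (κ κ' : Fin 6 → ℕ) (J J' : Set (Fin 6)),
      JSet c N h κ J → JSet c N h κ' J' → (∀ l l', κ l = κ l' → (l ∈ J ↔ l' ∈ J)) →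
      (∀ l l', κ' l = κ' l' → (l ∈ J' ↔ l' ∈ J')) → ∀ v v', ZA c N κ v v → ZA c N κ' v' v' → (∀ l ∈ J, ∀ l' ∈ J', v l ≠ v' l') →
      h v v' ≠ none

/-! ### The minimal set of pairs which cannot be separated -/

/-- Composition of a polymorphism with copies of binary polymorphisms. -/
def T_CMP : Prop :=
  ∀ (σ : Sig) (V X : Type) [LinearOrder V] (𝔸 : Str σ V) (M : ℕ) (c : V → V → X) (N : X)
    (inv : X → X),
    SetD 𝔸 M c N inv → ∀ (I : Type) (h : (I → V) → (I → V) → Option X), PolMap 𝔸 M c I h →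
      ∀ (n : ℕ) (q : Fin n → V) (γ : I → Fin n × Fin n → V) (z : Fin n × Fin n → I → V),
      (∀ l, BinPol 𝔸 q (γ l)) →
      (∀ l p p', ceq c (z p l) (z p' l) = ceq c (γ l p) (γ l p')) →
      ∃ δ : Fin n × Fin n → V, BinPol 𝔸 q δ ∧ ∀ p p', δ p = δ p' ↔ h (z p) (z p') = none

/-- Blocks which consist of copies of `γ₀` (in the positions `l ∈ S`) and of `γ₁` (in the other
positions); different copies are free from each other, but they share the elements which belong to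
`s₀` and `s₁`. -/
def T_CON : Prop :=
  ∀ (σ : Sig) (V X : Type) [LinearOrder V] (𝔸 : Str σ V) (M : ℕ) (c : V → V → X) (N : X)
    (inv : X → X),
    SetD 𝔸 M c N inv → ∀ (P : Type) [Finite P] (γ₀ γ₁ : P → V) (e : Fin 6 → ℕ) (S : Set (Fin 6))
      (s₀ s₁ : Set V), (∀ l, e l = 0 ∨ e l = 7) → (∀ l l', (l ∈ S ↔ l' ∈ S) ↔ e l = e l') →
      ∃ z : P → Fin 6 → V,
        (∀ l p p', ceq c (z p l) (z p' l) = ceq c (sel S γ₀ γ₁ l p) (sel S γ₀ γ₁ l p')) ∧
        (∀ p, ZA c N (kap e {l | sel S γ₀ γ₁ l p ∈ sel S s₀ s₁ l}) (z p) (z p)) ∧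
        ∀ p p' l l', z p l = z p' l' ↔ ((l ∈ S ↔ l' ∈ S) ∧
          sel S γ₀ γ₁ l p = sel S γ₀ γ₁ l' p' ∧ (l = l' ∨ sel S γ₀ γ₁ l p ∈ sel S s₀ s₁ l))

/-- The special blocks: their determining letter does not depend on the pattern `r`. -/
def T_LTR : Prop :=
  ∀ (σ : Sig) (V X : Type) [LinearOrder V] (𝔸 : Str σ V) (M : ℕ) (c : V → V → X) (N : X)
    (inv : X → X),
    SetD 𝔸 M c N inv → ¬ Const 𝔸 → ∀ h : (Fin 6 → V) → (Fin 6 → V) → Option X,
      PolMap 𝔸 M c (Fin 6) h → TInv c h →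
      (∀ (r : Fin 3) (x y x' y' : V), h (pat r x y) (pat r x' y') = h (pat 0 x y) (pat 0 x' y')) →
      ∀ (J : Fin 3 → Set (Fin 6)), (∀ r, JSet c N h (pat r 0 7) (J r)) →
      (∀ r l l', pat r (0 : ℕ) 7 l = pat r (0 : ℕ) 7 l' → (l ∈ J r ↔ l' ∈ J r)) →
      (∀ r, ∀ l ∈ J r, ∀ l' ∈ J r, pat r (0 : ℕ) 7 l = pat r (0 : ℕ) 7 l') →
      ∀ i₀ : Fin 6, ∃ r, i₀ ∉ J r ∧ ∀ l l', (l ∈ J r ↔ l' ∈ J r) ↔
        pat r (0 : ℕ) 7 l = pat r (0 : ℕ) 7 l'

/-- Binary injections. -/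
def T_INJ : Prop :=
  ∀ (σ : Sig) (V X : Type) [LinearOrder V] (𝔸 : Str σ V) (M : ℕ) (c : V → V → X) (N : X)
    (inv : X → X),
    SetD 𝔸 M c N inv → ¬ Const 𝔸 → ∀ h : (Fin 6 → V) → (Fin 6 → V) → Option X,
      PolMap 𝔸 M c (Fin 6) h → TInv c h →
      (∀ (r : Fin 3) (x y x' y' : V), h (pat r x y) (pat r x' y') = h (pat 0 x y) (pat 0 x' y')) →
      Inj2 𝔸

/-! ### Canonization -/

/-- Copies of polymorphisms. -/
def T_TRF : Prop :=
  ∀ (σ : Sig) (V X : Type) [LinearOrder V] (𝔸 : Str σ V) (M : ℕ) (c : V → V → X) (N : X)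
    (inv : X → X),
    SetD 𝔸 M c N inv → ∀ (I : Type) [Finite I] (h h' : (I → V) → (I → V) → Option X),
      PolMap 𝔸 M c I h → Lift c h h' → PolMap 𝔸 M c I h'

/-- The canonical Olšák map. -/
def T_HHH : Prop :=
  ∀ (σ : Sig) (V X : Type) [LinearOrder V] (𝔸 : Str σ V) (M : ℕ) (c : V → V → X) (N : X)
    (inv : X → X),
    SetD 𝔸 M c N inv → Countable V → Oligo 𝔸 → RamseyFin c → ¬ PPConstructsK3 𝔸 →
    ∃ h : (Fin 6 → V) → (Fin 6 → V) → Option X, PolMap 𝔸 M c (Fin 6) h ∧ TInv c h ∧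
      ∀ (r : Fin 3) (x y x' y' : V), h (pat r x y) (pat r x' y') = h (pat 0 x y) (pat 0 x' y')

/-- The limit of binary injections. -/
def T_LMT : Prop :=
  ∀ (σ : Sig) (V X : Type) [LinearOrder V] (𝔸 : Str σ V) (M : ℕ) (c : V → V → X) (N : X)
    (inv : X → X),
    SetD 𝔸 M c N inv → Inj2 𝔸 → ∃ h : (Fin 2 → V) → (Fin 2 → V) → Option X,
      PolMap 𝔸 M c (Fin 2) h ∧ ∀ v w, v ≠ w → h v w ≠ none

/-! ### Tournaments -/

/-- Tuples in arbitrary orders. -/
def T_ORD : Prop :=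
  ∀ (σ : Sig) (V X : Type) [LinearOrder V] (𝔸 : Str σ V) (M : ℕ) (c : V → V → X) (N : X)
    (inv : X → X),
    SetD 𝔸 M c N inv → ∀ (m : ℕ) (x : Fin m → V) (R : Type) [LinearOrder R] (rk : V → R),
      (∀ a b, rk (x a) = rk (x b) → x a = x b) → ∃ x' : Fin m → V,
        (∀ a b, ceq c (x' a) (x' b) = ceq c (x a) (x b)) ∧
        ∀ a b, x' a < x' b ↔ rk (x a) < rk (x b)

/-- The types of a canonical binary injection. -/
def T_LIN : Prop :=
  ∀ (σ : Sig) (V X : Type) [LinearOrder V] (𝔸 : Str σ V) (M : ℕ) (c : V → V → X) (N : X)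
    (inv : X → X),
    SetD 𝔸 M c N inv → ∀ h : (Fin 2 → V) → (Fin 2 → V) → Option X, PolMap 𝔸 M c (Fin 2) h →
      TInv c h → (∀ v w, v ≠ w → h v w ≠ none) → ∃ F lam rho, LinInjD 𝔸 M c F lam rho

/-- From orders to families and tournaments in the first coordinate. -/
def T_TO1 : Prop :=
  ∀ (σ : Sig) (V X : Type) [LinearOrder V] (𝔸 : Str σ V) (M : ℕ) (c : V → V → X) (N : X)
    (inv : X → X),
    SetD 𝔸 M c N inv → (∀ P₀ : ℕ, ∃ (p : ℕ) (w : (ZMod p → X) → X), P₀ ≤ p ∧ Odd p ∧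
      CycPolD 𝔸 M c p w) → ∀ F lam rho, LinInjD 𝔸 M c F lam rho →
      ∃ F' lam' rho', HalfFam 𝔸 M c F' lam' rho'

/-- From orders to families and tournaments in the second coordinate. -/
def T_TO2 : Prop :=
  ∀ (σ : Sig) (V X : Type) [LinearOrder V] (𝔸 : Str σ V) (M : ℕ) (c : V → V → X) (N : X)
    (inv : X → X),
    SetD 𝔸 M c N inv → (∀ P₀ : ℕ, ∃ (p : ℕ) (w : (ZMod p → X) → X), P₀ ≤ p ∧ Odd p ∧
      CycPolD 𝔸 M c p w) → ∀ F lam rho, HalfFam 𝔸 M c F lam rho →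
      ∃ F' lam' rho', FullFam 𝔸 M c F' lam' rho'

end Pool.Agent.H44.EQD
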