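import Pool.Agent.H57.EQ.Targets
import Pool.Agent.H57.EQD.Targets

/-!
# Systems of blocks
-/

set_option autoImplicit false
set_option linter.unusedVariables false

namespace Pool.Agent.H44.EQD.BKS

open Pool.Agent.H68.BP Pool.Agent.H58.SF Pool.Agent.H53.GC
open Pool.Agent.H57.EQ (Olm Same Blk)
open Classical

section

variable {V X : Type}

/-- the patterns determine their letters -/
theorem pat_inj (r r' : Fin 3) (x y x' y' : V) (h : pat r x y = pat r' x' y') :
    pat 0 x y = pat 0 x' y' := by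
  have h0 := congrFun h 0
  have h1 := congrFun h 1
  have h2 := congrFun h 2
  have h3 := congrFun h 3
  have h4 := congrFun h 4
  have h5 := congrFun h 5
  fin_cases r <;> fin_cases r' <;> simp [pat] at h0 h1 h2 h3 h4 h5 <;> simp_all

theorem pat_letters (r : Fin 3) (x y x' y' : V) (h : pat r x y = pat r x' y') :
    x = x' ∧ y = y' := by
  have h0 := congrFun h 0
  have h1 := congrFun h 1
  have h2 := congrFun h 2
  have h3 := congrFun h 3
  have h4 := congrFun h 4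
  have h5 := congrFun h 5
  fin_cases r <;> simp [pat] at h0 h1 h2 h3 h4 h5 <;> simp_all

theorem pat_rel (r : Fin 3) (x y x' y' s t : V) :
    (∃ l, pat r x y l = s ∧ pat r x' y' l = t) ↔ (x = s ∧ x' = t) ∨ (y = s ∧ y' = t) := by
  constructor
  · rintro ⟨l, h1, h2⟩
    fin_cases r <;> fin_cases l <;> simp [pat] at h1 h2 <;> simp_all
  · intro h
    rcases h with ⟨rfl, rfl⟩ | ⟨rfl, rfl⟩
    · fin_cases r
      · exact ⟨0, rfl, rfl⟩
      · exact ⟨0, rfl, rfl⟩
      · exact ⟨1, rfl, rfl⟩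
    · fin_cases r
      · exact ⟨2, rfl, rfl⟩
      · exact ⟨1, rfl, rfl⟩
      · exact ⟨0, rfl, rfl⟩

theorem pat_range (r : Fin 3) (x y : V) (l : Fin 6) : ∃ l', pat r x y l' = pat 0 x y l := by
  have h : pat 0 x y l = x ∨ pat 0 x y l = y := by
    fin_cases l <;> simp [pat]
  rcases h with h | h
  · obtain ⟨l', h', -⟩ := (pat_rel r x y x y x x).2 (Or.inl ⟨rfl, rfl⟩)
    exact ⟨l', h'.trans h.symm⟩
  · obtain ⟨l', h', -⟩ := (pat_rel r x y x y y y).2 (Or.inr ⟨rfl, rfl⟩)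
    exact ⟨l', h'.trans h.symm⟩

/-- the base pattern of a block -/
noncomputable def base (v : Fin 6 → V) : Fin 6 → V :=
  if h : ∃ p : Fin 3 × V × V, pat p.1 p.2.1 p.2.2 = v then
    pat 0 (Classical.choose h).2.1 (Classical.choose h).2.2 else v

theorem base_pat (r : Fin 3) (x y : V) : base (pat r x y) = pat 0 x y := by
  have h : ∃ p : Fin 3 × V × V, pat p.1 p.2.1 p.2.2 = pat r x y := ⟨(r, x, y), rfl⟩
  unfold base
  rw [dif_pos h]
  exact pat_inj _ _ _ _ _ _ (Classical.choose_spec h)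

/-- the key of a name -/
noncomputable def key (n : (Fin 6 → V) × V) :
    (Lex (Fin 6 → V)) ×ₗ ((Lex (Fin 6 → V)) ×ₗ V) :=
  toLex (toLex (base n.1), toLex (toLex n.1, n.2))

theorem key_inj : Function.Injective (key (V := V)) := by
  rintro ⟨v, a⟩ ⟨w, b⟩ h
  have h1 := toLex_inj.1 h
  have h2 := toLex_inj.1 (Prod.mk.inj h1).2
  obtain ⟨h3, h4⟩ := Prod.mk.inj h2
  exact Prod.ext (toLex_inj.1 h3) h4

/-- the colour of a pair of names -/
noncomputable def Dn (c : V → V → Option X) (fr : X) (n n' : (Fin 6 → V) × V) : Option X :=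
  if n = n' then none else
    if (∃ l, n.1 l = n.2 ∧ n'.1 l = n'.2) ∧ n.2 ≠ n'.2 then c n.2 n'.2 else some fr

theorem Dn_pat (c : V → V → Option X) (fr : X) (r : Fin 3) (q q' : V × V) (a b : V) :
    Dn c fr (pat r q.1 q.2, a) (pat r q'.1 q'.2, b) =
      Dn c fr (pat 0 q.1 q.2, a) (pat 0 q'.1 q'.2, b) := by
  have h1 : (pat r q.1 q.2, a) = (pat r q'.1 q'.2, b) ↔
      (pat 0 q.1 q.2, a) = (pat 0 q'.1 q'.2, b) := by
    rw [Prod.ext_iff, Prod.ext_iff]
    constructor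
    · rintro ⟨h, h'⟩
      exact ⟨pat_inj _ _ _ _ _ _ h, h'⟩
    · rintro ⟨h, h'⟩
      have h : pat 0 q.1 q.2 = pat 0 q'.1 q'.2 := h
      obtain ⟨h2, h3⟩ := pat_letters _ _ _ _ _ h
      refine ⟨?_, h'⟩
      change pat r q.1 q.2 = pat r q'.1 q'.2
      rw [h2, h3]
  unfold Dn
  simp only [h1, pat_rel]

variable [LinearOrder V]

theorem key_lt (n n' : (Fin 6 → V) × V) : key n < key n' ↔
    toLex (base n.1) < toLex (base n'.1) ∨ (base n.1 = base n'.1 ∧
      (toLex n.1 < toLex n'.1 ∨ (n.1 = n'.1 ∧ n.2 < n'.2))) := by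
  unfold key
  rw [Prod.Lex.toLex_lt_toLex]
  simp only [Prod.Lex.toLex_lt_toLex, toLex_inj]

theorem key_pat (r : Fin 3) (q q' : V × V) (a b : V) :
    key (pat r q.1 q.2, a) < key (pat r q'.1 q'.2, b) ↔
      key (pat 0 q.1 q.2, a) < key (pat 0 q'.1 q'.2, b) := by
  rw [key_lt, key_lt]
  simp only [base_pat]
  by_cases h : pat 0 q.1 q.2 = pat 0 q'.1 q'.2
  · obtain ⟨h2, h3⟩ := pat_letters _ _ _ _ _ h
    rw [h2, h3]
    have e1 : ¬ toLex (pat 0 q'.1 q'.2) < toLex (pat 0 q'.1 q'.2) := lt_irrefl _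
    have e2 : ¬ toLex (pat r q'.1 q'.2) < toLex (pat r q'.1 q'.2) := lt_irrefl _
    simp only [e1, e2, true_and, false_or]
  · simp only [h, false_and]

end

/-- the names of the elements of the blocks -/
def Nm {V : Type} (F : Finset (Fin 6 → V)) : Type :=
  {n : (Fin 6 → V) × V // n.1 ∈ F ∧ ∃ l, n.1 l = n.2}

/-- systems of blocks, for all structures with systems of points -/
theorem core {σ : Sig} {V X : Type} [LinearOrder V] {𝔸 : Str σ V} {c : V → V → Option X} {fr : X}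
    (hc : ∀ x y, c x y = none ↔ x = y)
    (hS : ∀ (W : Type) [LinearOrder W] [Finite W] (u : W → V) (r : W → W → Prop),
      (∀ n n', r n n' → r n' n) → ∃ e : W → V, StrictMono e ∧ ∀ n n', n ≠ n' →
        (r n n' → u n ≠ u n' → c (e n) (e n') = c (u n) (u n')) ∧
        (¬ (r n n' ∧ u n ≠ u n') → c (e n) (e n') = some fr))
    (h : (Fin 6 → V) → (Fin 6 → V) → Option X) (hh : Olm 𝔸 c h) : ∃ h', Blk c h h' := by
  -- the blocks
  have hE : ∀ F : Finset (Fin 6 → V), ∃ E : (Fin 6 → V) → V → V,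
      ∀ v ∈ F, ∀ w ∈ F, ∀ a b, (∃ l, v l = a) → (∃ l, w l = b) →
        (E v a < E w b ↔ key (v, a) < key (w, b)) ∧ c (E v a) (E w b) = Dn c fr (v, a) (w, b) := by
    intro F
    have hfin : Finite (Nm F) := by
      have : Function.Surjective (fun p : F × Fin 6 =>
          (⟨(p.1.1, p.1.1 p.2), p.1.2, p.2, rfl⟩ : Nm F)) := by
        rintro ⟨⟨v, a⟩, hv, l, hl⟩
        refine ⟨(⟨v, hv⟩, l), ?_⟩
        apply Subtype.ext
        exact Prod.ext rfl hl
      exact Finite.of_surjective _ this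
    let _ : LinearOrder (Nm F) := LinearOrder.lift' (fun n : Nm F => key n.1)
      (fun n n' hn => Subtype.ext (key_inj hn))
    have hlt : ∀ n n' : Nm F, n < n' ↔ key n.1 < key n'.1 := fun _ _ => Iff.rfl
    obtain ⟨e, he, hec⟩ := hS (Nm F) (fun n => n.1.2)
      (fun n n' => ∃ l, n.1.1 l = n.1.2 ∧ n'.1.1 l = n'.1.2)
      (fun n n' ⟨l, h1, h2⟩ => ⟨l, h2, h1⟩)
    refine ⟨fun v a => if hv : v ∈ F ∧ ∃ l, v l = a then e ⟨(v, a), hv⟩ else a, ?_⟩
    intro v hv w hw a b ha hb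
    simp only
    rw [dif_pos ⟨hv, ha⟩, dif_pos ⟨hw, hb⟩]
    constructor
    · exact he.lt_iff_lt.trans (hlt (⟨(v, a), hv, ha⟩ : Nm F) (⟨(w, b), hw, hb⟩ : Nm F))
    · unfold Dn
      by_cases hn : (v, a) = (w, b)
      · rw [if_pos hn, hc]
        congr 1
        exact Subtype.ext hn
      · rw [if_neg hn]
        have h1 := hec (⟨(v, a), hv, ha⟩ : Nm F) (⟨(w, b), hw, hb⟩ : Nm F)
          (fun h' => hn (congrArg Subtype.val h'))
        by_cases hr : (∃ l, v l = a ∧ w l = b) ∧ a ≠ b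
        · rw [if_pos hr]
          exact h1.1 hr.1 hr.2
        · rw [if_neg hr]
          exact h1.2 hr
  choose E hE using hE
  -- independence of the finite set
  have hind : ∀ (F F' : Finset (Fin 6 → V)) (v w : Fin 6 → V), v ∈ F → w ∈ F → v ∈ F' → w ∈ F' →
      h (fun l => E F v (v l)) (fun l => E F w (w l)) =
        h (fun l => E F' v (v l)) (fun l => E F' w (w l)) := by
    intro F F' v w hv hw hv' hw'
    have key' : ∀ (G : Finset (Fin 6 → V)) (hv : v ∈ G) (hw : w ∈ G) (i : Fin 6 ⊕ Fin 6),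
        ∃ t ∈ G, ∃ l, Sum.elim (fun l => E G v (v l)) (fun l => E G w (w l)) i = E G t (t l) ∧
          t = Sum.elim (fun _ => v) (fun _ => w) i ∧ t l = Sum.elim v w i := by
      intro G hv hw i
      cases i with
      | inl l => exact ⟨v, hv, l, rfl, rfl, rfl⟩
      | inr l => exact ⟨w, hw, l, rfl, rfl, rfl⟩
    refine hh.tinv _ _ _ _ fun i j => ?_
    obtain ⟨t, ht, l, h1, h2, h3⟩ := key' F hv hw i
    obtain ⟨t', ht', l', h1', h2', h3'⟩ := key' F hv hw j
    obtain ⟨s, hs, m, g1, g2, g3⟩ := key' F' hv' hw' i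
    obtain ⟨s', hs', m', g1', g2', g3'⟩ := key' F' hv' hw' j
    rw [h1, h1', g1, g1']
    obtain ⟨a1, a2⟩ := hE F t ht t' ht' (t l) (t' l') ⟨l, rfl⟩ ⟨l', rfl⟩
    obtain ⟨b1, b2⟩ := hE F' s hs s' hs' (s m) (s' m') ⟨m, rfl⟩ ⟨m', rfl⟩
    rw [a1, a2, b1, b2, h3, h3', g3, g3', h2, h2', g2, g2']
    exact ⟨Iff.rfl, rfl⟩
  refine ⟨fun v w => h (fun l => E {v, w} v (v l)) (fun l => E {v, w} w (w l)), ?_, ?_⟩
  · -- exactness
    intro r x y x' y'
    have hp : ∀ (G : Finset (Fin 6 → V)) (v : Fin 6 → V) (r : Fin 3) (x y : V),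
        (fun l => E G v (pat r x y l)) = pat r (E G v x) (E G v y) := fun G v r x y =>
      funext fun l => pat_map (fun a => E G v a) r x y l
    simp only [hp]
    rw [hh.exact r]
    simp only [← hp]
    refine hh.tinv _ _ _ _ fun i j => ?_
    have key' : ∀ (r : Fin 3) (G : Finset (Fin 6 → V)) (hv : pat r x y ∈ G)
        (hw : pat r x' y' ∈ G) (i : Fin 6 ⊕ Fin 6),
        ∃ q : V × V, q = Sum.elim (fun _ => (x, y)) (fun _ => (x', y')) i ∧
          pat r q.1 q.2 ∈ G ∧ ∃ a, a = Sum.elim (pat 0 x y) (pat 0 x' y') i ∧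
          (∃ l', pat r q.1 q.2 l' = a) ∧
          Sum.elim (fun l => E G (pat r x y) (pat 0 x y l))
            (fun l => E G (pat r x' y') (pat 0 x' y' l)) i = E G (pat r q.1 q.2) a := by
      intro r G hv hw i
      cases i with
      | inl l => exact ⟨(x, y), rfl, hv, _, rfl, pat_range r x y l, rfl⟩
      | inr l => exact ⟨(x', y'), rfl, hw, _, rfl, pat_range r x' y' l, rfl⟩
    obtain ⟨q, h1, h2, a, h3, h4, h5⟩ := key' r {pat r x y, pat r x' y'} (by simp) (by simp) i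
    obtain ⟨q', h1', h2', a', h3', h4', h5'⟩ :=
      key' r {pat r x y, pat r x' y'} (by simp) (by simp) j
    obtain ⟨p, g1, g2, b, g3, g4, g5⟩ := key' 0 {pat 0 x y, pat 0 x' y'} (by simp) (by simp) i
    obtain ⟨p', g1', g2', b', g3', g4', g5'⟩ :=
      key' 0 {pat 0 x y, pat 0 x' y'} (by simp) (by simp) j
    obtain ⟨a1, a2⟩ := hE _ _ h2 _ h2' a a' h4 h4'
    obtain ⟨b1, b2⟩ := hE _ _ g2 _ g2' b b' g4 g4'
    have e1 : q = p := h1.trans g1.symm
    have e2 : q' = p' := h1'.trans g1'.symm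
    have e3 : a = b := h3.trans g3.symm
    have e4 : a' = b' := h3'.trans g3'.symm
    rw [h5, h5', g5, g5', a1, a2, b1, b2, e1, e2, e3, e4]
    exact ⟨key_pat r p p' b b', Dn_pat c fr r p p' b b'⟩
  · -- blocks
    intro F
    refine ⟨fun v l => E F v (v l), ?_, ?_, ?_⟩
    · intro v hv w hw hvw l l' he
      have h1 := (hE F v hv w hw (v l) (w l') ⟨l, rfl⟩ ⟨l', rfl⟩).2
      rw [(hc _ _).2 he] at h1
      unfold Dn at h1
      rw [if_neg (fun h' => hvw (Prod.mk.inj h').1)] at h1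
      split_ifs at h1 with h2
      exact h2.2 ((hc _ _).1 h1.symm)
    · intro v hv w hw l hl
      have h1 := (hE F v hv w hw (v l) (w l) ⟨l, rfl⟩ ⟨l, rfl⟩).2
      change c (E F v (v l)) (E F w (w l)) = _
      rw [h1]
      unfold Dn
      rw [if_neg (fun h' => hl (Prod.mk.inj h').2), if_pos ⟨⟨l, rfl, rfl⟩, hl⟩]
    · intro v hv w hw
      exact hind _ _ v w (by simp) (by simp) hv hw

theorem pf_BKS (hSYS : Pool.Agent.H57.EQ.T_SYS) : Pool.Agent.H57.EQ.T_BKS := by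
  intro σ V X _ 𝔸 M c fr hs h hh
  exact core hs.col.none_iff (fun W _ _ u r hr => hSYS σ V X 𝔸 M c fr hs W u r hr) h hh

theorem pf_BKSD (hSYS : Pool.Agent.H57.EQD.T_SYS) : Pool.Agent.H57.EQD.T_BKS := by
  intro σ V X _ 𝔸 M c fr rv hs h hh
  exact core hs.col.none_iff (fun W _ _ u r hr => hSYS σ V X 𝔸 M c fr rv hs W u r hr) h hh

end Pool.Agent.H44.EQD.BKS
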