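import Pool.Agent.H44.EQD.Basic

/-!
# Composition of a polymorphism with copies of binary polymorphisms
-/

set_option autoImplicit false
set_option linter.unusedVariables false

namespace Pool.Agent.H44.EQD.CMP

open Pool.Agent.H44.EQD
open Pool.Agent.H44.EQ (ceq TypeClosed Const PolMap TInv BinPol Inj2 ZA JSet Twin sel kap Lift
  T_MIN T_CAS T_CNG T_ALW)
open Pool.Agent.H53.GC Pool.Agent.H53.NR Pool.Agent.H68.BP Pool.Agent.H58.SF
open Classical

theorem ceq_none {V X : Type} {c : V → V → X} {x y : V} : ceq c x y = none ↔ x = y := by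
  unfold ceq
  split_ifs with h
  · simp [h]
  · simp [h]

theorem pf_CMP (hR : T_RLZ) : T_CMP := by
  intro σ V X _ 𝔸 M c N inv hs I h hp n q γ z hγ hz
  obtain ⟨δ, hδ⟩ := hR σ V X 𝔸 M c N inv hs (Fin n × Fin n) (fun p p' => h (z p) (z p')) (by
    intro p
    obtain ⟨x, -, hx⟩ := hp.rel none (fun a => z (p a)) (fun i => trivial)
    exact ⟨x, hx⟩)
  refine ⟨δ, ?_, ?_⟩
  · intro l a b ha hb
    obtain ⟨x, hx, hxx⟩ := hp.rel (some l) (fun i => z (a i, b i)) (by
      intro j
      exact hs.typ l (fun i => γ j (a i, b i)) _ (hγ j l a b ha hb)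
        fun i i' => (hz j (a i, b i) (a i', b i')).symm)
    exact hs.typ l x _ hx fun i i' => by rw [hxx i i', hδ]
  · intro p p'
    rw [← hδ p p', ceq_none]

end Pool.Agent.H44.EQD.CMP
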