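import Pool.Agent.H44.EQD.Basic

/-!
# Consistent equalities, and free twins
-/

set_option autoImplicit false
set_option linter.unusedVariables false

namespace Pool.Agent.H44.EQD.EQV

open Pool.Agent.H44.EQD
open Pool.Agent.H44.EQ (ceq TypeClosed Const PolMap TInv BinPol Inj2 ZA JSet Twin sel kap Lift
  T_MIN T_CAS T_CNG T_ALW)
open Pool.Agent.H53.GC Pool.Agent.H53.NR Pool.Agent.H68.BP Pool.Agent.H58.SF
open Classical

theorem ceq_none {V X : Type} {c : V → V → X} {x y : V} : ceq c x y = none ↔ x = y := by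
  unfold ceq
  split_ifs with h <;> simp [h]

theorem ceq_symm {V X : Type} {c : V → V → X} (hc : ∀ x y, c x y = c y x) (x y : V) :
    ceq c x y = ceq c y x := by
  unfold ceq
  by_cases h : x = y
  · rw [if_pos h, if_pos h.symm]
  · rw [if_neg h, if_neg (Ne.symm h), hc]

theorem pf_EQV : T_EQV := by
  intro σ V X _ 𝔸 M c N inv hS I h hP
  have h3 := hS.three
  have key : ∀ v w z : I → V, ∃ x y t : V, ceq c x y = h v w ∧ ceq c y x = h w v ∧
      ceq c x t = h v z ∧ ceq c y t = h w z := by
    intro v w z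
    obtain ⟨x, -, hx⟩ := hP.rel none
      (fun a : Fin M => if a.1 = 0 then v else if a.1 = 1 then w else z) fun _ => trivial
    let x' : Fin M → V := x
    have hx' : ∀ a b : Fin M, ceq c (x' a) (x' b) =
        h (if a.1 = 0 then v else if a.1 = 1 then w else z)
          (if b.1 = 0 then v else if b.1 = 1 then w else z) := hx
    refine ⟨x' ⟨0, by omega⟩, x' ⟨1, by omega⟩, x' ⟨2, by omega⟩, ?_, ?_, ?_, ?_⟩
    · rw [hx']; rfl
    · rw [hx']; rfl
    · rw [hx']; rfl
    · rw [hx']; rfl
  constructor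
  · intro v w
    obtain ⟨x, y, t, h1, h2, -, -⟩ := key v w w
    rw [← h1, ← h2, hS.ceq_symm x y]
  · intro v w z hvw
    obtain ⟨x, y, t, h1, -, h3, h4⟩ := key v w z
    rw [hvw, ceq_none] at h1
    rw [← h3, ← h4, h1]

/-- the universe -/
abbrev WW {V : Type} (z z' : Fin 6 → V) : Type := Set.range z ⊕ Set.range z' × Bool

section

variable {V X : Type} {z z' : Fin 6 → V}

/-- the elements of the block `z` -/
def wz (z z' : Fin 6 → V) (l : Fin 6) : WW z z' := Sum.inl ⟨z l, l, rfl⟩

/-- the elements of the copies of the block `z'` -/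
def wu (z z' : Fin 6 → V) (b : Bool) (l : Fin 6) : WW z z' := Sum.inr (⟨z' l, l, rfl⟩, b)

/-- the projection -/
def pr : WW z z' → V
  | Sum.inl x => x.1
  | Sum.inr y => y.1.1

/-- the order -/
def rk : WW z z' → V ×ₗ ℕ
  | Sum.inl x => toLex (x.1, 0)
  | Sum.inr y => toLex (y.1.1, if y.2 then 1 else 0)

/-- the colours -/
def dd (c : V → V → X) (N : X) : WW z z' → WW z z' → X
  | Sum.inl x, Sum.inl x' => c x.1 x'.1
  | Sum.inl x, Sum.inr y => c x.1 y.1.1
  | Sum.inr y, Sum.inl x => c y.1.1 x.1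
  | Sum.inr y, Sum.inr y' => if y.2 = y'.2 then c y.1.1 y'.1.1 else N

end

theorem pf_NC1 (hC : T_CFG) (hE : T_EQV) : T_NC1 := by
  intro σ V X _ 𝔸 M c N inv hS h hP hT z z' hzz hn
  have hrk : Function.Injective (rk (z := z) (z' := z')) := by
    rintro (⟨x, l, rfl⟩ | ⟨⟨y, l, rfl⟩, b⟩) (⟨x', l', rfl⟩ | ⟨⟨y', l', rfl⟩, b'⟩) hxy
    · have h1 := congrArg (fun t => (ofLex t).1) hxy
      simp only [rk, ofLex_toLex] at h1
      simp [h1]
    · have h1 := congrArg (fun t => (ofLex t).1) hxy
      simp only [rk, ofLex_toLex] at h1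
      exact absurd h1 (hzz l l')
    · have h1 := congrArg (fun t => (ofLex t).1) hxy
      simp only [rk, ofLex_toLex] at h1
      exact absurd h1.symm (hzz l' l)
    · have h1 := congrArg (fun t => (ofLex t).1) hxy
      have h2 := congrArg (fun t => (ofLex t).2) hxy
      simp only [rk, ofLex_toLex] at h1 h2
      have h3 : b = b' := by
        cases b <;> cases b' <;> simp_all
      simp [h1, h3]
  obtain ⟨f, hf1, hf2⟩ := hC σ V X 𝔸 M c N inv hS (WW z z') (V ×ₗ ℕ) rk (dd c N) hrk
    (by
      rintro (x | y) (x' | y')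
      · exact hS.sym _ _
      · exact hS.sym _ _
      · exact hS.sym _ _
      · simp only [dd]
        by_cases hb : y.2 = y'.2
        · rw [if_pos hb, if_pos hb.symm]
          exact hS.sym _ _
        · rw [if_neg hb, if_neg (Ne.symm hb)]
          exact hS.invN.symm)
    (by
      rintro (x | y)
      · exact hS.diag _
      · simp only [dd, if_true]
        exact hS.diag _)
    (by
      intro K hK
      refine ⟨pr, ?_, ?_⟩
      · rintro (⟨x, l, rfl⟩ | ⟨⟨y, l, rfl⟩, b⟩) hx (⟨x', l', rfl⟩ | ⟨⟨y', l', rfl⟩, b'⟩) hy hxy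
        · simp only [pr] at hxy
          simp [hxy]
        · exact absurd hxy (hzz l l')
        · exact absurd hxy.symm (hzz l' l)
        · simp only [pr] at hxy
          by_cases hb : b = b'
          · simp [hxy, hb]
          · refine absurd ?_ (hK _ hx _ hy fun he => hb ?_)
            · simp only [dd, if_neg hb]
            · exact congrArg Prod.snd (Sum.inr_injective he)
      · rintro (x | ⟨y, b⟩) hx (x' | ⟨y', b'⟩) hy hxy
        · rfl
        · rfl
        · rfl
        · by_cases hb : b = b'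
          · simp only [dd, pr, if_pos hb]
          · refine absurd ?_ (hK _ hx _ hy hxy)
            simp only [dd, if_neg hb])
  have hlt : ∀ x y, f x < f y ↔ rk x < rk y := by
    intro x y
    refine ⟨fun hxy => ?_, hf1 x y⟩
    rcases lt_trichotomy (rk x) (rk y) with h1 | h1 | h1
    · exact h1
    · rw [hrk h1] at hxy
      exact absurd hxy (lt_irrefl _)
    · exact absurd (hf1 _ _ h1) (not_lt.2 hxy.le)
  have hST : ∀ b : Bool, SameType c (Sum.elim z z')
      (Sum.elim (fun l => f (wz z z' l)) (fun l => f (wu z z' b l))) := by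
    intro b
    have hne : ∀ l l', z' l' ≠ z l := fun l l' => (hzz l l').symm
    rintro (l | l) (l' | l')
    · refine ⟨?_, fun _ => ?_⟩
      · simp only [Sum.elim_inl, hlt, wz, rk, Prod.Lex.toLex_lt_toLex]
        simp
      · simp only [Sum.elim_inl, hf2, wz, dd]
    · refine ⟨?_, fun _ => ?_⟩
      · simp only [Sum.elim_inl, Sum.elim_inr, hlt, wz, wu, rk, Prod.Lex.toLex_lt_toLex]
        simp [hzz l l']
      · simp only [Sum.elim_inl, Sum.elim_inr, hf2, wz, wu, dd]
    · refine ⟨?_, fun _ => ?_⟩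
      · simp only [Sum.elim_inl, Sum.elim_inr, hlt, wz, wu, rk, Prod.Lex.toLex_lt_toLex]
        simp
      · simp only [Sum.elim_inl, Sum.elim_inr, hf2, wz, wu, dd]
    · refine ⟨?_, fun _ => ?_⟩
      · simp only [Sum.elim_inr, hlt, wu, rk, Prod.Lex.toLex_lt_toLex]
        simp
      · simp only [Sum.elim_inr, hf2, wu, dd, if_true]
  have h0 : h (fun l => f (wz z z' l)) (fun l => f (wu z z' false l)) = none := by
    rw [← hT _ _ _ _ (hST false)]
    exact hn
  have h1 : h (fun l => f (wz z z' l)) (fun l => f (wu z z' true l)) = none := by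
    rw [← hT _ _ _ _ (hST true)]
    exact hn
  refine ⟨fun l => f (wu z z' false l), fun l => f (wu z z' true l), ?_, ?_⟩
  · refine ⟨fun l l' => ?_, fun l l' => ?_⟩
    · simp only [hlt, wu, rk, Prod.Lex.toLex_lt_toLex]
      refine ⟨by simp, by simp, ?_, by simp⟩
      simp [le_iff_lt_or_eq]
    · simp only [hf2, wu, dd]
      simp
  · rw [← (hE σ V X 𝔸 M c N inv hS (Fin 6) h hP).2 _ _ _ h0]
    exact h1

end Pool.Agent.H44.EQD.EQV
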