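import Pool.Agent.H44.EQD.Basic

/-!
# There are determining positions (row JNE of eqi_modules)
-/

set_option autoImplicit false

namespace Pool.Agent.H44.EQD.JNE

open Pool.Agent.H44.EQD
open Pool.Agent.H44.EQ (ceq TypeClosed Const PolMap TInv BinPol Inj2 ZA JSet Twin sel kap Lift
  T_MIN T_CAS T_CNG T_ALW)
open Pool.Agent.H53.GC Pool.Agent.H53.NR Pool.Agent.H68.BP Pool.Agent.H58.SF

theorem pf_JNE (hC : T_CFG) (hN : T_NC) : T_JNE := by
  classical
  intro σ V X _ 𝔸 M c N inv hS hcon h hP hT κ J hJ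
  rw [Set.nonempty_iff_ne_empty]
  rintro rfl
  obtain ⟨v0⟩ := hS.ne
  obtain ⟨f, hf1, hf2⟩ := hC σ V X 𝔸 M c N inv hS (Set.range κ × Bool) ℕ
    (fun w => 2 * (w.1 : ℕ) + (if w.2 then 1 else 0)) (fun _ _ => N) (by
      rintro ⟨⟨a, ha⟩, b⟩ ⟨⟨a', ha'⟩, b'⟩ h1
      simp only at h1
      have h2 : a = a' ∧ b = b' := by
        cases b <;> cases b' <;> simp at h1 ⊢ <;> omega
      obtain ⟨rfl, rfl⟩ := h2
      rfl) (fun _ _ => hS.invN.symm) (fun _ => rfl)
    (fun K hK => ⟨fun _ => v0, fun x hx y hy _ => by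
      by_contra hne
      exact hK x hx y hy hne rfl, fun x hx y hy hne => absurd rfl (hK x hx y hy hne)⟩)
  have hlt : ∀ (l l' : Fin 6) (b b' : Bool), κ l < κ l' →
      f (⟨κ l, l, rfl⟩, b) < f (⟨κ l', l', rfl⟩, b') := by
    intro l l' b b' h1
    apply hf1
    show 2 * κ l + (if b then 1 else 0) < 2 * κ l' + (if b' then 1 else 0)
    split_ifs <;> omega
  have hZ : ZA c N κ (fun l => f (⟨κ l, l, rfl⟩, false)) (fun l => f (⟨κ l, l, rfl⟩, true)) := by
    refine ⟨fun l l' h1 => ?_, fun l l' h1 => ?_, fun l l' _ => ?_⟩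
    · have h2 : (⟨κ l, l, rfl⟩ : Set.range κ) = ⟨κ l', l', rfl⟩ := Subtype.ext h1
      constructor
      · show f (⟨κ l, l, rfl⟩, false) = f (⟨κ l', l', rfl⟩, false)
        rw [h2]
      · show f (⟨κ l, l, rfl⟩, true) = f (⟨κ l', l', rfl⟩, true)
        rw [h2]
    · exact ⟨hlt l l' _ _ h1, hlt l l' _ _ h1, hlt l l' _ _ h1, hlt l l' _ _ h1⟩
    · exact ⟨hf2 _ _, hf2 _ _, hf2 _ _, hf2 _ _⟩
  refine hN σ V X 𝔸 M c N inv hS hcon h hP hT (fun l => f (⟨κ l, l, rfl⟩, false))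
    (fun l => f (⟨κ l, l, rfl⟩, true)) ?_ ((hJ _ _ hZ).2 ?_)
  · intro l l'
    rcases lt_trichotomy (κ l) (κ l') with h1 | h1 | h1
    · exact (hlt l l' false true h1).ne
    · refine (hf1 _ _ ?_).ne
      show 2 * κ l + (if false then 1 else 0) < 2 * κ l' + (if true then 1 else 0)
      rw [h1]
      simp
    · exact (hlt l' l true false h1).ne'
  · intro l hl
    exact absurd hl (Set.notMem_empty l)

end Pool.Agent.H44.EQD.JNE
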