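import Pool.Agent.H44.EQD.Basic

/-!
# The types of a canonical binary injection
-/

set_option autoImplicit false
set_option linter.unusedVariables false

namespace Pool.Agent.H44.EQD.LIN

open Pool.Agent.H44.EQD
open Pool.Agent.H44.EQ (ceq TypeClosed Const PolMap TInv BinPol Inj2 ZA JSet Twin sel kap Lift
  T_MIN T_CAS T_CNG T_ALW)
open Pool.Agent.H53.GC Pool.Agent.H53.NR Pool.Agent.H68.BP Pool.Agent.H58.SF
open Classical

section

variable {V X : Type} [LinearOrder V]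

/-- the pairs `v` and `w`: the first entries are below the second entries and free from them -/
structure Zn (c : V → V → X) (N : X) (v w : Fin 2 → V) : Prop where
  l1 : v 0 < v 1
  l2 : v 0 < w 1
  l3 : w 0 < v 1
  l4 : w 0 < w 1
  c1 : c (v 0) (v 1) = N
  c2 : c (v 0) (w 1) = N
  c3 : c (w 0) (v 1) = N
  c4 : c (w 0) (w 1) = N

theorem Zn.symm {c : V → V → X} {N : X} {v w : Fin 2 → V} (h : Zn c N v w) : Zn c N w v :=
  ⟨h.l4, h.l3, h.l2, h.l1, h.c4, h.c3, h.c2, h.c1⟩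

theorem zn_same {c : V → V → X} {N : X} {inv : X → X} (sym : ∀ x y, c y x = inv (c x y))
    (hN : inv N = N) (diag : ∀ x, c x x = N)
    {v w v' w' : Fin 2 → V} (hz : Zn c N v w) (hz' : Zn c N v' w')
    (h0 : v 0 < w 0 ↔ v' 0 < w' 0) (h0' : w 0 < v 0 ↔ w' 0 < v' 0)
    (c0 : c (v 0) (w 0) = c (v' 0) (w' 0)) (h1 : v 1 < w 1 ↔ v' 1 < w' 1)
    (h1' : w 1 < v 1 ↔ w' 1 < v' 1) (c1 : c (v 1) (w 1) = c (v' 1) (w' 1)) :
    SameType c (Sum.elim v w) (Sum.elim v' w') := by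
  have c0' : c (w 0) (v 0) = c (w' 0) (v' 0) := by rw [sym (v 0), c0, ← sym (v' 0)]
  have c1' : c (w 1) (v 1) = c (w' 1) (v' 1) := by rw [sym (v 1), c1, ← sym (v' 1)]
  obtain ⟨a1, a2, a3, a4, b1, b2, b3, b4⟩ := hz
  obtain ⟨a1', a2', a3', a4', b1', b2', b3', b4'⟩ := hz'
  have s1 : c (v 1) (v 0) = N := by rw [sym (v 0), b1, hN]
  have s2 : c (w 1) (v 0) = N := by rw [sym (v 0), b2, hN]
  have s3 : c (v 1) (w 0) = N := by rw [sym (w 0), b3, hN]
  have s4 : c (w 1) (w 0) = N := by rw [sym (w 0), b4, hN]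
  have s1' : c (v' 1) (v' 0) = N := by rw [sym (v' 0), b1', hN]
  have s2' : c (w' 1) (v' 0) = N := by rw [sym (v' 0), b2', hN]
  have s3' : c (v' 1) (w' 0) = N := by rw [sym (w' 0), b3', hN]
  have s4' : c (w' 1) (w' 0) = N := by rw [sym (w' 0), b4', hN]
  clear sym
  have g1 := a1.not_gt
  have g2 := a2.not_gt
  have g3 := a3.not_gt
  have g4 := a4.not_gt
  have g1' := a1'.not_gt
  have g2' := a2'.not_gt
  have g3' := a3'.not_gt
  have g4' := a4'.not_gt
  rintro (i | i) (j | j)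
  · fin_cases i <;> fin_cases j <;> refine ⟨?_, fun _ => ?_⟩ <;>
      simp_all only [Sum.elim_inl, Fin.zero_eta, Fin.mk_one, Fin.isValue, lt_irrefl]
  · fin_cases i <;> fin_cases j <;> refine ⟨?_, fun _ => ?_⟩ <;>
      simp_all only [Sum.elim_inl, Sum.elim_inr, Fin.zero_eta, Fin.mk_one, Fin.isValue]
  · fin_cases i <;> fin_cases j <;> refine ⟨?_, fun _ => ?_⟩ <;>
      simp_all only [Sum.elim_inl, Sum.elim_inr, Fin.zero_eta, Fin.mk_one, Fin.isValue]
  · fin_cases i <;> fin_cases j <;> refine ⟨?_, fun _ => ?_⟩ <;>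
      simp_all only [Sum.elim_inr, Fin.zero_eta, Fin.mk_one, Fin.isValue, lt_irrefl]

theorem lin_lt {a b : V} (h : a ≠ b) : b < a ↔ ¬ a < b := by
  rw [not_lt]
  exact ⟨fun h' => h'.le, fun h' => lt_of_le_of_ne h' h.symm⟩

omit [LinearOrder V] in
theorem lin_ceq_eq {c : V → V → X} {x y : V} (h : x = y) : ceq c x y = none := by
  unfold ceq
  rw [if_pos h]

omit [LinearOrder V] in
theorem lin_ceq_ne {c : V → V → X} {x y : V} (h : x ≠ y) : ceq c x y = some (c x y) := by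
  unfold ceq
  rw [if_neg h]

omit [LinearOrder V] in
theorem lin_ceq_congr {c : V → V → X} {x y x' y' : V} (h : x = y ↔ x' = y')
    (hc : c x y = c x' y') : ceq c x y = ceq c x' y' := by
  unfold ceq
  by_cases h1 : x = y
  · rw [if_pos h1, if_pos (h.1 h1)]
  · rw [if_neg h1, if_neg (fun h' => h1 (h.2 h')), hc]

variable {c : V → V → X} {N : X} {h : (Fin 2 → V) → (Fin 2 → V) → Option X}

variable {inv : X → X}

theorem exists_F (sym : ∀ x y, c y x = inv (c x y)) (hN : inv N = N) (diag : ∀ x, c x x = N)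
    (ht : TInv c h) (hn : ∀ v w, v ≠ w → h v w ≠ none) :
    ∃ F : Prop → Prop → X → X → X, ∀ v w, Zn c N v w → v 0 ≠ w 0 → v 1 ≠ w 1 →
      h v w = some (F (v 0 < w 0) (v 1 < w 1) (c (v 0) (w 0)) (c (v 1) (w 1))) := by
  obtain ⟨Val, hVal⟩ : ∃ Val : Prop → Prop → X → X → X → Prop, Val = fun r s t t' u =>
      ∃ v w, Zn c N v w ∧ v 0 ≠ w 0 ∧ v 1 ≠ w 1 ∧ (v 0 < w 0 ↔ r) ∧ (v 1 < w 1 ↔ s) ∧
      c (v 0) (w 0) = t ∧ c (v 1) (w 1) = t' ∧ h v w = some u := ⟨_, rfl⟩
  refine ⟨fun r s t t' => if hh : ∃ u, Val r s t t' u then Classical.choose hh else N, ?_⟩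
  intro v w hz h0 h1
  obtain ⟨u, hu⟩ := Option.ne_none_iff_exists'.1 (hn v w (fun he => h1 (by rw [he])))
  have hex : ∃ u, Val (v 0 < w 0) (v 1 < w 1) (c (v 0) (w 0)) (c (v 1) (w 1)) u := by
    refine ⟨u, ?_⟩
    rw [hVal]
    exact ⟨v, w, hz, h0, h1, Iff.rfl, Iff.rfl, rfl, rfl, hu⟩
  simp only
  rw [dif_pos hex]
  have hsp := Classical.choose_spec hex
  generalize Classical.choose hex = u0 at hsp ⊢
  rw [hVal] at hsp
  obtain ⟨v', w', hz', h0', h1', hr', hs', e0, e1, hu'⟩ := hsp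
  rw [ht v w v' w' (zn_same sym hN diag hz hz' hr'.symm
    (by rw [lin_lt h0, lin_lt h0', hr']) e0.symm hs'.symm
    (by rw [lin_lt h1, lin_lt h1', hs']) e1.symm), hu']

theorem exists_lam (sym : ∀ x y, c y x = inv (c x y)) (hN : inv N = N) (diag : ∀ x, c x x = N)
    (ht : TInv c h) (hn : ∀ v w, v ≠ w → h v w ≠ none) :
    ∃ lam : Prop → X → X, ∀ v w, Zn c N v w → v 0 = w 0 → v 1 ≠ w 1 →
      h v w = some (lam (v 1 < w 1) (c (v 1) (w 1))) := by
  obtain ⟨Val, hVal⟩ : ∃ Val : Prop → X → X → Prop, Val = fun s t' u => ∃ v w, Zn c N v w ∧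
      v 0 = w 0 ∧ v 1 ≠ w 1 ∧ (v 1 < w 1 ↔ s) ∧ c (v 1) (w 1) = t' ∧ h v w = some u :=
    ⟨_, rfl⟩
  refine ⟨fun s t' => if hh : ∃ u, Val s t' u then Classical.choose hh else N, ?_⟩
  intro v w hz h0 h1
  obtain ⟨u, hu⟩ := Option.ne_none_iff_exists'.1 (hn v w (fun he => h1 (by rw [he])))
  have hex : ∃ u, Val (v 1 < w 1) (c (v 1) (w 1)) u := by
    refine ⟨u, ?_⟩
    rw [hVal]
    exact ⟨v, w, hz, h0, h1, Iff.rfl, rfl, hu⟩
  simp only
  rw [dif_pos hex]
  have hsp := Classical.choose_spec hex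
  generalize Classical.choose hex = u0 at hsp ⊢
  rw [hVal] at hsp
  obtain ⟨v', w', hz', h0', h1', hs', e1, hu'⟩ := hsp
  rw [ht v w v' w' (zn_same sym hN diag hz hz' (by simp [h0, h0']) (by simp [h0, h0'])
    (by rw [h0, h0', diag, diag]) hs'.symm
    (by rw [lin_lt h1, lin_lt h1', hs']) e1.symm), hu']

theorem exists_rho (sym : ∀ x y, c y x = inv (c x y)) (hN : inv N = N) (diag : ∀ x, c x x = N)
    (ht : TInv c h) (hn : ∀ v w, v ≠ w → h v w ≠ none) :
    ∃ rho : Prop → X → X, ∀ v w, Zn c N v w → v 1 = w 1 → v 0 ≠ w 0 →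
      h v w = some (rho (v 0 < w 0) (c (v 0) (w 0))) := by
  obtain ⟨Val, hVal⟩ : ∃ Val : Prop → X → X → Prop, Val = fun s t' u => ∃ v w, Zn c N v w ∧
      v 1 = w 1 ∧ v 0 ≠ w 0 ∧ (v 0 < w 0 ↔ s) ∧ c (v 0) (w 0) = t' ∧ h v w = some u :=
    ⟨_, rfl⟩
  refine ⟨fun s t' => if hh : ∃ u, Val s t' u then Classical.choose hh else N, ?_⟩
  intro v w hz h0 h1
  obtain ⟨u, hu⟩ := Option.ne_none_iff_exists'.1 (hn v w (fun he => h1 (by rw [he])))
  have hex : ∃ u, Val (v 0 < w 0) (c (v 0) (w 0)) u := by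
    refine ⟨u, ?_⟩
    rw [hVal]
    exact ⟨v, w, hz, h0, h1, Iff.rfl, rfl, hu⟩
  simp only
  rw [dif_pos hex]
  have hsp := Classical.choose_spec hex
  generalize Classical.choose hex = u0 at hsp ⊢
  rw [hVal] at hsp
  obtain ⟨v', w', hz', h0', h1', hs', e1, hu'⟩ := hsp
  rw [ht v w v' w' (zn_same sym hN diag hz hz' hs'.symm
    (by rw [lin_lt h1, lin_lt h1', hs']) e1.symm
    (by simp [h0, h0']) (by simp [h0, h0']) (by rw [h0, h0', diag, diag])), hu']

/-- the formula for the pairs in two zones -/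
theorem exists_form (sym : ∀ x y, c y x = inv (c x y)) (hN : inv N = N)
    (diag : ∀ x, c x x = N) (ht : TInv c h)
    (hn : ∀ v w, v ≠ w → h v w ≠ none) (hr : ∀ v, h v v = none) :
    ∃ (F : Prop → Prop → X → X → X) (lam rho : Prop → X → X), ∀ v w, Zn c N v w →
      h v w = combD F lam rho (v 0 < w 0) (v 1 < w 1) (ceq c (v 0) (w 0))
        (ceq c (v 1) (w 1)) := by
  obtain ⟨F, hF⟩ := exists_F sym hN diag ht hn
  obtain ⟨lam, hlam⟩ := exists_lam sym hN diag ht hn
  obtain ⟨rho, hrho⟩ := exists_rho sym hN diag ht hn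
  refine ⟨F, lam, rho, ?_⟩
  intro v w hz
  by_cases h0 : v 0 = w 0
  · by_cases h1 : v 1 = w 1
    · have : v = w := by
        funext i
        fin_cases i
        · exact h0
        · exact h1
      rw [this, hr, lin_ceq_eq rfl, lin_ceq_eq rfl]
      rfl
    · rw [hlam v w hz h0 h1, lin_ceq_ne h1, lin_ceq_eq h0]
      rfl
  · by_cases h1 : v 1 = w 1
    · rw [hrho v w hz h1 h0, lin_ceq_ne h0, lin_ceq_eq h1]
      rfl
    · rw [hF v w hz h0 h1, lin_ceq_ne h0, lin_ceq_ne h1]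
      rfl

end

theorem pf_LIN (hC : T_CFG) (hE : T_EQV) : Pool.Agent.H44.EQD.T_LIN := by
  intro σ V X _ 𝔸 M c N inv hs h hp ht hn
  obtain ⟨F, lam, rho, hform⟩ := exists_form hs.sym hs.invN hs.diag ht hn hp.refl
  refine ⟨F, lam, rho, ?_⟩
  intro s x y hx hy
  -- the configuration
  obtain ⟨d, hd⟩ : ∃ d : (Set.range x ⊕ Set.range y) → (Set.range x ⊕ Set.range y) → X,
      d = fun a b => match a, b with
        | .inl a, .inl b => c a b
        | .inr a, .inr b => c a b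
        | _, _ => N := ⟨_, rfl⟩
  obtain ⟨rk, hrk⟩ : ∃ rk : (Set.range x ⊕ Set.range y) → ℕ ×ₗ V,
      rk = fun a => match a with
        | .inl a => toLex (0, (a : V))
        | .inr a => toLex (1, (a : V)) := ⟨_, rfl⟩
  have hinj : Function.Injective rk := by
    rw [hrk]
    rintro (a | a) (b | b) hab
    · simp only [EmbeddingLike.apply_eq_iff_eq, Prod.mk.injEq, true_and] at hab
      rw [Subtype.ext hab]
    · simp at hab
    · simp at hab
    · simp only [EmbeddingLike.apply_eq_iff_eq, Prod.mk.injEq, true_and] at hab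
      rw [Subtype.ext hab]
  obtain ⟨f, hf, hfc⟩ := hC σ V X 𝔸 M c N inv hs (Set.range x ⊕ Set.range y) (ℕ ×ₗ V) rk d hinj
    (by
      rw [hd]
      rintro (a | a) (b | b)
      · exact hs.sym _ _
      · exact hs.invN.symm
      · exact hs.invN.symm
      · exact hs.sym _ _)
    (by
      rw [hd]
      rintro (a | a)
      · exact hs.diag _
      · exact hs.diag _)
    (by
      intro K hK
      refine ⟨Sum.elim (fun a => (a : V)) (fun a => (a : V)), ?_, ?_⟩
      · rintro (a | a) ha (b | b) hb hab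
        · rw [Subtype.ext hab]
        · exact absurd (by rw [hd]) (hK _ ha _ hb (by simp))
        · exact absurd (by rw [hd]) (hK _ ha _ hb (by simp))
        · rw [Subtype.ext hab]
      · rintro (a | a) ha (b | b) hb hab
        · rw [hd]
          rfl
        · exact absurd (by rw [hd]) (hK _ ha _ hb (by simp))
        · exact absurd (by rw [hd]) (hK _ ha _ hb (by simp))
        · rw [hd]
          rfl)
  have hlt : ∀ a b, f a < f b ↔ rk a < rk b := by
    intro a b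
    refine ⟨fun h' => ?_, hf a b⟩
    rcases lt_trichotomy (rk a) (rk b) with h1 | h1 | h1
    · exact h1
    · rw [hinj h1] at h'
      exact absurd h' (lt_irrefl _)
    · exact absurd h' (hf b a h1).not_gt
  have heq : ∀ a b, f a = f b ↔ a = b := by
    intro a b
    refine ⟨fun h' => ?_, fun h' => by rw [h']⟩
    rcases lt_trichotomy (rk a) (rk b) with h1 | h1 | h1
    · exact absurd h' (hf a b h1).ne
    · exact hinj h1
    · exact absurd h' (hf b a h1).ne'
  obtain ⟨fx, hfx⟩ : ∃ fx : Fin (arP σ M s) → V, fx = fun a => f (.inl ⟨x a, a, rfl⟩) := ⟨_, rfl⟩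
  obtain ⟨fy, hfy⟩ : ∃ fy : Fin (arP σ M s) → V, fy = fun a => f (.inr ⟨y a, a, rfl⟩) := ⟨_, rfl⟩
  have hxlt : ∀ a b, fx a < fx b ↔ x a < x b := by
    intro a b
    rw [hfx]
    simp only
    rw [hlt, hrk]
    simp only
    rw [Prod.Lex.toLex_lt_toLex]
    simp
  have hylt : ∀ a b, fy a < fy b ↔ y a < y b := by
    intro a b
    rw [hfy]
    simp only
    rw [hlt, hrk]
    simp only
    rw [Prod.Lex.toLex_lt_toLex]
    simp
  have hxy : ∀ a b, fx a < fy b := by
    intro a b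
    rw [hfx, hfy]
    simp only
    rw [hlt, hrk]
    simp only
    rw [Prod.Lex.toLex_lt_toLex]
    simp
  have hxyc : ∀ a b, c (fx a) (fy b) = N := by
    intro a b
    rw [hfx, hfy]
    simp only
    rw [hfc, hd]
  have hxc : ∀ a b, ceq c (fx a) (fx b) = ceq c (x a) (x b) := by
    intro a b
    refine lin_ceq_congr ?_ ?_
    · rw [hfx]
      simp only
      rw [heq]
      exact ⟨fun h' => congrArg Subtype.val (Sum.inl_injective h'),
        fun h' => congrArg Sum.inl (Subtype.ext h')⟩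
    · rw [hfx]
      simp only
      rw [hfc, hd]
  have hyc : ∀ a b, ceq c (fy a) (fy b) = ceq c (y a) (y b) := by
    intro a b
    refine lin_ceq_congr ?_ ?_
    · rw [hfy]
      simp only
      rw [heq]
      exact ⟨fun h' => congrArg Subtype.val (Sum.inr_injective h'),
        fun h' => congrArg Sum.inr (Subtype.ext h')⟩
    · rw [hfy]
      simp only
      rw [hfc, hd]
  have htyp : ∀ {x y : Fin (arP σ M s) → V}, relP 𝔸 M s x →
      (∀ a b, ceq c (y a) (y b) = ceq c (x a) (x b)) → relP 𝔸 M s y := by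
    intro x y hx hxy
    cases s with
    | none => trivial
    | some l => exact hs.typ l x y hx fun a b => (hxy a b).symm
  obtain ⟨z, hz, hzz⟩ := hp.rel s (fun a => ![fx a, fy a]) (by
    intro i
    fin_cases i
    · exact htyp hx hxc
    · exact htyp hy hyc)
  refine ⟨z, hz, fun a b => ?_⟩
  rw [hzz, hform _ _ ⟨hxy a a, hxy a b, hxy b a, hxy b b, hxyc a a, hxyc a b, hxyc b a,
    hxyc b b⟩]
  show combD F lam rho (fx a < fx b) (fy a < fy b) (ceq c (fx a) (fx b)) (ceq c (fy a) (fy b)) = _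
  rw [hxlt, hylt, hxc, hyc]

end Pool.Agent.H44.EQD.LIN
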