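import Pool.Agent.H44.EQD.Basic

/-!
# Twins with the same value: a constant endomorphism
-/

set_option autoImplicit false
set_option linter.unusedVariables false

namespace Pool.Agent.H44.EQD.NC2

open Pool.Agent.H68.BP Pool.Agent.H58.SF Pool.Agent.H53.GC Pool.Agent.H53.NR Pool.Agent.H44.EQ
open Classical

section

variable {V X : Type}

/-- the colours of pairs with equal first coordinate -/
noncomputable def dO (c : V → V → X) (N : X) {Q : Set V} : Option Q → Option Q → X
  | some q, some q' => c q q'
  | _, _ => N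

/-- the configuration -/
noncomputable def dW (c : V → V → X) (N : X) {Z Q : Set V} (p p' : Z × Option Q) : X :=
  if p.2 = p'.2 then c p.1 p'.1 else if p.1 = p'.1 then dO c N p.2 p'.2 else N

/-- the order of the configuration -/
def rkO {Q : Set V} : Option Q → WithTop V
  | some q => ((q : V) : WithTop V)
  | none => ⊤

/-- the order of the configuration -/
def rkW {Z Q : Set V} (p : Z × Option Q) : V ×ₗ WithTop V := toLex ((p.1 : V), rkO p.2)

theorem rkO_inj {Q : Set V} : Function.Injective (rkO : Option Q → WithTop V) := by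
  intro a b h
  cases a with
  | none =>
    cases b with
    | none => rfl
    | some b => exact absurd h (by simp [rkO])
  | some a =>
    cases b with
    | none => exact absurd h (by simp [rkO])
    | some b =>
      have h' : ((a : V) : WithTop V) = ((b : V) : WithTop V) := h
      rw [Subtype.ext (WithTop.coe_injective h')]

theorem rkW_inj {Z Q : Set V} : Function.Injective (rkW : Z × Option Q → V ×ₗ WithTop V) := by
  intro p p' h
  have h' : ((p.1 : V), rkO p.2) = ((p'.1 : V), rkO p'.2) := toLex.injective h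
  have h1 := congrArg Prod.fst h'
  have h2 := congrArg Prod.snd h'
  exact Prod.ext (Subtype.ext h1) (rkO_inj h2)

theorem dO_symm {c : V → V → X} {inv : X → X} (hc : ∀ x y, c y x = inv (c x y)) (N : X)
    (hN : inv N = N) {Q : Set V} (s s' : Option Q) : dO c N s' s = inv (dO c N s s') := by
  cases s with
  | none => cases s' <;> exact hN.symm
  | some q =>
    cases s' with
    | none => exact hN.symm
    | some q' => exact hc _ _

theorem dW_symm {c : V → V → X} {inv : X → X} (hc : ∀ x y, c y x = inv (c x y)) (N : X)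
    (hN : inv N = N) {Z Q : Set V} (p p' : Z × Option Q) :
    dW c N p' p = inv (dW c N p p') := by
  unfold dW
  by_cases h : p.2 = p'.2
  · rw [if_pos h, if_pos h.symm, hc]
  · have h' : ¬ p'.2 = p.2 := fun h' => h h'.symm
    rw [if_neg h, if_neg h']
    by_cases h1 : p.1 = p'.1
    · rw [if_pos h1, if_pos h1.symm, dO_symm hc N hN]
    · have h1' : ¬ p'.1 = p.1 := fun h' => h1 h'.symm
      rw [if_neg h1, if_neg h1', hN]

theorem dW_ne {c : V → V → X} {N : X} {Z Q : Set V} {p p' : Z × Option Q}
    (h2 : p.2 ≠ p'.2) (h : dW c N p p' ≠ N) :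
    p.1 = p'.1 ∧ ∃ q q' : Q, p.2 = some q ∧ p'.2 = some q' := by
  unfold dW at h
  rw [if_neg h2] at h
  by_cases h1 : p.1 = p'.1
  · rw [if_pos h1] at h
    refine ⟨h1, ?_⟩
    obtain ⟨y, s⟩ := p
    obtain ⟨y', s'⟩ := p'
    cases s with
    | none => exact absurd rfl h
    | some q =>
      cases s' with
      | none => exact absurd rfl h
      | some q' => exact ⟨q, q', rfl, rfl⟩
  · rw [if_neg h1] at h
    exact absurd rfl h

/-- the sets without free pairs are realized -/
theorem dW_real [Nonempty V] (c : V → V → X) (N : X) {Z Q : Set V} (K : Set (Z × Option Q))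
    (hK : ∀ x ∈ K, ∀ y ∈ K, x ≠ y → dW c N x y ≠ N) :
    ∃ u : Z × Option Q → V, (∀ x ∈ K, ∀ y ∈ K, u x = u y → x = y) ∧
      ∀ x ∈ K, ∀ y ∈ K, x ≠ y → c (u x) (u y) = dW c N x y := by
  by_cases hA : ∃ p ∈ K, ∃ p' ∈ K, p.2 ≠ p'.2
  · obtain ⟨p, hp, p', hp', hne⟩ := hA
    have hpp : p ≠ p' := fun h => hne (by rw [h])
    obtain ⟨h1, q, q', hq, hq'⟩ := dW_ne hne (hK p hp p' hp' hpp)
    have key : ∀ k ∈ K, k.1 = p.1 ∧ ∃ r : Q, k.2 = some r := by
      intro k hk
      by_cases h : k.2 = p.2
      · have h' : k.2 ≠ p'.2 := fun h' => hne (h.symm.trans h')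
        have hkp : k ≠ p' := fun h => h' (by rw [h])
        obtain ⟨g1, r, r', hr, hr'⟩ := dW_ne h' (hK k hk p' hp' hkp)
        exact ⟨g1.trans h1.symm, r, hr⟩
      · have hkp : k ≠ p := fun h' => h (by rw [h'])
        obtain ⟨g1, r, r', hr, hr'⟩ := dW_ne h (hK k hk p hp hkp)
        exact ⟨g1, r, hr⟩
    refine ⟨fun w => match w.2 with
      | some r => (r : V)
      | none => Classical.arbitrary V, ?_, ?_⟩
    · intro k hk k' hk' h
      obtain ⟨g, r, hr⟩ := key k hk
      obtain ⟨g', r', hr'⟩ := key k' hk'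
      simp only [hr, hr'] at h
      have : r = r' := Subtype.ext h
      subst this
      exact Prod.ext (g.trans g'.symm) (hr.trans hr'.symm)
    · intro k hk k' hk' h
      obtain ⟨g, r, hr⟩ := key k hk
      obtain ⟨g', r', hr'⟩ := key k' hk'
      simp only [hr, hr']
      have h2 : k.2 ≠ k'.2 := fun h2 => h (Prod.ext (g.trans g'.symm) h2)
      unfold dW
      rw [if_neg h2, if_pos (g.trans g'.symm), hr, hr']
      rfl
  · push Not at hA
    refine ⟨fun w => (w.1 : V), ?_, ?_⟩
    · intro k hk k' hk' h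
      exact Prod.ext (Subtype.ext h) (hA k hk k' hk')
    · intro k hk k' hk' h
      unfold dW
      rw [if_pos (hA k hk k' hk')]

end

theorem pf_NC2 (hC : T_CFG) (hE : T_EQV) : T_NC2 := by
  intro σ V X _ 𝔸 M c N inv hS h hP hT z u u' htw hnone
  have : Nonempty V := hS.ne
  obtain ⟨hsym, htr⟩ := hE σ V X 𝔸 M c N inv hS (Fin 6) h hP
  refine ⟨Classical.arbitrary V, ?_⟩
  intro l x hx
  -- the configuration
  obtain ⟨f, hf1, hf2⟩ := hC σ V X 𝔸 M c N inv hS (Set.range z × Option (Set.range x))
    (V ×ₗ WithTop V) rkW (dW c N) rkW_inj (dW_symm hS.sym N hS.invN)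
    (fun w => by unfold dW; rw [if_pos rfl, hS.diag]) (dW_real c N)
  have hf1' : ∀ p p', f p < f p' ↔ rkW p < rkW p' := by
    intro p p'
    refine ⟨fun hlt => ?_, hf1 p p'⟩
    rcases lt_trichotomy (rkW p) (rkW p') with h1 | h1 | h1
    · exact h1
    · rw [rkW_inj h1] at hlt
      exact absurd hlt (lt_irrefl _)
    · exact absurd hlt (not_lt.2 (hf1 _ _ h1).le)
  have hfi : Function.Injective f := by
    intro p p' he
    rcases lt_trichotomy (rkW p) (rkW p') with h1 | h1 | h1
    · exact absurd he (hf1 _ _ h1).ne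
    · exact rkW_inj h1
    · exact absurd he (hf1 _ _ h1).ne'
  -- the blocks
  let b : Option (Set.range x) → Fin 6 → V := fun s i => f (⟨z i, i, rfl⟩, s)
  have hbs : ∀ s i i', (b s i < b s i' ↔ z i < z i') := by
    intro s i i'
    change f _ < f _ ↔ _
    rw [hf1']
    unfold rkW
    rw [Prod.Lex.toLex_lt_toLex]
    simp
  have hbc : ∀ s i i', c (b s i) (b s i') = c (z i) (z i') := by
    intro s i i'
    change c (f _) (f _) = _
    rw [hf2]
    unfold dW
    rw [if_pos rfl]
  have hst : ∀ q : Set.range x, SameType c (Sum.elim u u') (Sum.elim (b (some q)) (b none)) := by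
    intro q i j
    have e1 : ∀ i j, c (b (some q) i) (b none j) = N := by
      intro i j
      change c (f _) (f _) = _
      rw [hf2]
      unfold dW
      rw [if_neg (by simp)]
      split_ifs
      · rfl
      · rfl
    rcases i with i | i <;> rcases j with j | j
    · simp only [Sum.elim_inl]
      exact ⟨(htw.ord i j).1.trans (hbs _ i j).symm,
        fun _ => (htw.col i j).1.trans (hbc _ i j).symm⟩
    · simp only [Sum.elim_inl, Sum.elim_inr]
      refine ⟨(htw.ord i j).2.2.1.trans ?_, fun _ => (htw.col i j).2.2.trans (e1 i j).symm⟩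
      change _ ↔ f _ < f _
      rw [hf1']
      unfold rkW
      rw [Prod.Lex.toLex_lt_toLex]
      simp only [rkO, WithTop.coe_lt_top, and_true]
      exact le_iff_lt_or_eq
    · simp only [Sum.elim_inl, Sum.elim_inr]
      refine ⟨(htw.ord i j).2.2.2.trans ?_, fun _ => ?_⟩
      · change _ ↔ f _ < f _
        rw [hf1']
        unfold rkW
        rw [Prod.Lex.toLex_lt_toLex]
        simp only [rkO, not_top_lt, and_false, or_false]
      · rw [hS.sym (u j) (u' i), (htw.col j i).2.2, hS.sym (b (some q) j) (b none i), e1 j i]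
    · simp only [Sum.elim_inr]
      exact ⟨(htw.ord i j).2.1.trans (hbs _ i j).symm,
        fun _ => (htw.col i j).2.1.trans (hbc _ i j).symm⟩
  have hb0 : ∀ q : Set.range x, h (b (some q)) (b none) = none := by
    intro q
    rw [← hT u u' _ _ (hst q), hnone]
  have hb1 : ∀ q q' : Set.range x, h (b (some q)) (b (some q')) = none := by
    intro q q'
    rw [htr _ _ _ (hb0 q), hsym, hb0]
    rfl
  -- the polymorphism
  obtain ⟨y, hy, hy2⟩ := hP.rel (some l) (fun a => b (some ⟨x a, a, rfl⟩)) (by
    intro i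
    refine hS.typ l x _ hx ?_
    intro a a'
    unfold ceq
    by_cases he : x a = x a'
    · rw [if_pos he]
      have : (⟨x a, a, rfl⟩ : Set.range x) = ⟨x a', a', rfl⟩ := Subtype.ext he
      rw [if_pos]
      rw [this]
    · rw [if_neg he]
      have hne : ¬ (f (⟨z i, i, rfl⟩, some ⟨x a, a, rfl⟩) = f (⟨z i, i, rfl⟩, some ⟨x a', a', rfl⟩)) := by
        intro h'
        have h2 := congrArg Prod.snd (hfi h')
        have h3 := Option.some.inj h2
        exact he (congrArg Subtype.val h3)
      have hc' : c (f (⟨z i, i, rfl⟩, some ⟨x a, a, rfl⟩)) (f (⟨z i, i, rfl⟩, some ⟨x a', a', rfl⟩)) =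
          c (x a) (x a') := by
        rw [hf2]
        unfold dW
        have : ¬ ((some ⟨x a, a, rfl⟩ : Option (Set.range x)) = some ⟨x a', a', rfl⟩) := by
          intro h'
          exact he (congrArg Subtype.val (Option.some.inj h'))
        rw [if_neg this, if_pos rfl]
        rfl
      rw [if_neg hne]
      exact congrArg some hc'.symm)
  refine hS.typ l y _ hy ?_
  intro a a'
  rw [hy2 a a', hb1]
  unfold ceq
  rw [if_pos rfl]

end Pool.Agent.H44.EQD.NC2
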