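import Pool.Agent.H44.EQD.Basic

/-!
# Tuples in arbitrary orders (row ORD of eqi_modules)
-/

set_option autoImplicit false

namespace Pool.Agent.H44.EQD.ORD

open Pool.Agent.H44.EQD
open Pool.Agent.H44.EQ (ceq TypeClosed Const PolMap TInv BinPol Inj2 ZA JSet Twin sel kap Lift
  T_MIN T_CAS T_CNG T_ALW)
open Pool.Agent.H53.GC Pool.Agent.H53.NR Pool.Agent.H68.BP Pool.Agent.H58.SF

theorem pf_ORD (hC : T_CFG) : T_ORD := by
  classical
  intro σ V X _ 𝔸 M c N inv hS m x R _ rk hrk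
  obtain ⟨f, hf1, hf2⟩ := hC σ V X 𝔸 M c N inv hS (Set.range x) R (fun w => rk w.1)
    (fun w w' => c w.1 w'.1) (by
      rintro ⟨_, a, rfl⟩ ⟨_, b, rfl⟩ h
      exact Subtype.ext (hrk a b h)) (fun w w' => hS.sym _ _) (fun w => hS.diag _)
    (fun K _ => ⟨fun w => w.1, fun w _ w' _ h => Subtype.ext h, fun w _ w' _ _ => rfl⟩)
  have hlt : ∀ a b, rk (x a) < rk (x b) → f ⟨x a, a, rfl⟩ < f ⟨x b, b, rfl⟩ :=
    fun a b h => hf1 ⟨x a, a, rfl⟩ ⟨x b, b, rfl⟩ h
  have heq : ∀ a b, f ⟨x a, a, rfl⟩ = f ⟨x b, b, rfl⟩ ↔ x a = x b := by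
    intro a b
    constructor
    · intro h
      apply hrk
      by_contra hne
      rcases lt_or_gt_of_ne hne with h1 | h1
      · exact (hlt a b h1).ne h
      · exact (hlt b a h1).ne h.symm
    · intro h
      congr 1
      exact Subtype.ext h
  refine ⟨fun a => f ⟨x a, a, rfl⟩, fun a b => ?_, fun a b => ⟨fun h => ?_, hlt a b⟩⟩
  · unfold ceq
    by_cases h : x a = x b
    · rw [if_pos h, if_pos ((heq a b).2 h)]
    · rw [if_neg h, if_neg (fun h' => h ((heq a b).1 h'))]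
      rw [hf2]
  · by_contra hn
    rcases lt_or_eq_of_le (not_lt.1 hn) with h1 | h1
    · exact lt_asymm h (hlt b a h1)
    · have h2 := hrk b a h1
      exact h.ne ((heq a b).2 h2.symm)

end Pool.Agent.H44.EQD.ORD
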