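import Pool.Agent.H44.EQD.Basic

/-!
# From orders to families and tournaments
-/

set_option autoImplicit false
set_option linter.unusedVariables false

namespace Pool.Agent.H44.EQD.TO1

open Pool.Agent.H68.BP Pool.Agent.H58.SF Pool.Agent.H53.GC Pool.Agent.H53.NR
open Pool.Agent.H44.EQD
open Pool.Agent.H44.EQ (ceq TypeClosed Const PolMap TInv BinPol Inj2 ZA JSet Twin sel kap Lift
  T_MIN T_CAS T_CNG T_ALW)
open Pool.Agent.H57.EQ (Tour)
open Classical

section

variable {V X : Type} {σ : Sig}

theorem ceq_eq {c : V → V → X} {x y : V} (h : x = y) : ceq c x y = none := by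
  unfold ceq
  rw [if_pos h]

theorem ceq_ne {c : V → V → X} {x y : V} (h : x ≠ y) : ceq c x y = some (c x y) := by
  unfold ceq
  rw [if_neg h]

theorem ceq_none {c : V → V → X} {x y : V} (h : ceq c x y = none) : x = y := by
  by_contra hne
  rw [ceq_ne hne] at h
  exact absurd h (by simp)

theorem ceq_some {c : V → V → X} {x y : V} {t : X} (h : ceq c x y = some t) :
    x ≠ y ∧ c x y = t := by
  have hne : x ≠ y := by
    intro he
    rw [ceq_eq he] at h
    exact absurd h (by simp)
  rw [ceq_ne hne] at h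
  exact ⟨hne, by simpa using h⟩

/-- relations (and the full relation) are unions of types -/
theorem typ_rel {𝔸 : Str σ V} {M : ℕ} {c : V → V → X} (h : TypeClosed 𝔸 c)
    (s : Option (Fin σ.m)) {x y : Fin (arP σ M s) → V} (hx : relP 𝔸 M s x)
    (hxy : ∀ a b, ceq c (y a) (y b) = ceq c (x a) (x b)) : relP 𝔸 M s y := by
  cases s with
  | none => trivial
  | some l => exact h l x y hx fun a b => (hxy a b).symm

/-- The colours given by `w` at ascending (`r`) or descending pairs. -/
noncomputable def dual {p : ℕ} (inv : X → X) (w : (ZMod p → X) → X) (r : Bool)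
    (u : ZMod p → X) : X :=
  if r = true then w u else inv (w (fun i => inv (u i)))

theorem shift_w {𝔸 : Str σ V} {M : ℕ} {c : V → V → X} {p : ℕ} [NeZero p]
    {w : (ZMod p → X) → X} (hw : CycPolD 𝔸 M c p w) (t : ZMod p → X) (j : ZMod p) :
    w (fun i => t (i - j)) = w t := by
  have h1 : ∀ k : ℕ, w (fun i => t (i + k)) = w t := by
    intro k
    induction k with
    | zero => simp
    | succ k ih =>
      rw [← ih, ← hw.cyc (fun i => t (i + k))]
      congr 1
      funext i
      push_cast
      congr 1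
      ring
  have h2 := h1 (-j).val
  rw [ZMod.natCast_zmod_val] at h2
  rw [← h2]
  congr 1
  funext i
  rw [sub_eq_add_neg]

theorem shift_dual {𝔸 : Str σ V} {M : ℕ} {c : V → V → X} {p : ℕ} [NeZero p]
    {w : (ZMod p → X) → X} (hw : CycPolD 𝔸 M c p w) (inv : X → X) (r : Bool)
    (t : ZMod p → X) (j : ZMod p) :
    dual inv w r (fun i => t (i - j)) = dual inv w r t := by
  unfold dual
  rw [shift_w hw t j, shift_w hw (fun i => inv (t i)) j]

/-- Combination by `w` of tuples with the same kernel, along the order `rk`. -/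
theorem comb_w [LinearOrder V] {𝔸 : Str σ V} {M : ℕ} {c : V → V → X} {N : X} {inv : X → X}
    (hs : SetD 𝔸 M c N inv) {p : ℕ} {w : (ZMod p → X) → X} (hw : CycPolD 𝔸 M c p w)
    (s : Option (Fin σ.m)) (z : ZMod p → Fin (arP σ M s) → V) (hz : ∀ i, relP 𝔸 M s (z i))
    (rk : Fin (arP σ M s) → ℕ) (hk : ∀ i a b, z i a = z i b ↔ rk a = rk b) :
    ∃ y, relP 𝔸 M s y ∧ ∀ a b, ceq c (y a) (y b) =
      if rk a = rk b then none
      else some (dual inv w (decide (rk a < rk b)) (fun i => c (z i a) (z i b))) := by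
  obtain ⟨y, hy, hyy⟩ := hw.rel s z hz (fun i j a b => by rw [hk, hk]) rk
    (fun a b => (hk 0 a b).symm)
  refine ⟨y, hy, fun a b => ?_⟩
  by_cases h : rk a = rk b
  · rw [if_pos h]
    exact ceq_eq ((hyy a b).1.2 ((hk 0 a b).2 h))
  · rw [if_neg h]
    have hne : y a ≠ y b := fun he => h ((hk 0 a b).1 ((hyy a b).1.1 he))
    rw [ceq_ne hne]
    congr 1
    unfold dual
    by_cases hlt : rk a < rk b
    · rw [if_pos (by simpa using hlt)]
      exact (hyy a b).2 hlt
    · have hgt : rk b < rk a := by omega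
      rw [if_neg (by simpa using hlt), hs.sym (y b) (y a), (hyy b a).2 hgt]
      congr 2
      funext i
      exact hs.sym _ _

/-- The tuples of a family, in the orders of an almost linear tournament. -/
theorem fam_ord [LinearOrder V] (hO : T_ORD) {𝔸 : Str σ V} {M : ℕ} {c : V → V → X} {N : X}
    {inv : X → X} (hs : SetD 𝔸 M c N inv) {p : ℕ} [NeZero p] (s : Option (Fin σ.m))
    (hP : ∀ o : Fin (arP σ M s) → Fin (arP σ M s) → Prop,
      (∀ a b, a ≠ b → (o a b ↔ ¬ o b a)) → ∃ rk : ZMod p → Fin (arP σ M s) → ℕ,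
        (∀ i, Function.Injective (rk i)) ∧ ∀ a b, a ≠ b → o a b →
          ∃ j : ZMod p, ∀ i : ZMod p, rk i a < rk i b ↔ (i - j).val < (p + 1) / 2)
    (x : Fin (arP σ M s) → V) (Q : Fin (arP σ M s) → Fin (arP σ M s) → X × X)
    (T : V → V → Bool) (hT : Tour T) (hx : FamR 𝔸 M c s x Q) :
    ∃ x' : ZMod p → Fin (arP σ M s) → V, (∀ i, relP 𝔸 M s (x' i)) ∧
      (∀ i a b, x' i a = x' i b ↔ x a = x b) ∧
      ∀ a b, x a ≠ x b → ∃ j : ZMod p, ∀ i,
        ((x' i a < x' i b) ↔ (T (x a) (x b) = true ↔ (i - j).val < (p + 1) / 2)) ∧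
        c (x' i a) (x' i b) = if x' i a < x' i b then (Q a b).1 else (Q a b).2 := by
  -- the tournament on the indices
  obtain ⟨rk, hinj, hrk⟩ := hP
    (fun a b => if x a ≠ x b then T (x a) (x b) = true else a < b) (by
      intro a b hab
      by_cases h : x a = x b
      · rw [if_neg (by simp [h]), if_neg (by simp [h])]
        constructor
        · intro h1
          exact not_lt.2 h1.le
        · intro h1
          exact lt_of_le_of_ne (not_lt.1 h1) hab
      · rw [if_pos h, if_pos (Ne.symm h)]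
        rw [hT _ _ h]
        cases T (x a) (x b) <;> simp)
  obtain ⟨lb, hlb⟩ : ∃ lb : Fin (arP σ M s) → Fin (arP σ M s),
      lb = fun a => Classical.choose (⟨a, rfl⟩ : ∃ b, x b = x a) := ⟨_, rfl⟩
  have hxl : ∀ a, x (lb a) = x a := by
    intro a
    rw [hlb]
    exact Classical.choose_spec (⟨a, rfl⟩ : ∃ b, x b = x a)
  have hlx : ∀ a b, x a = x b → lb a = lb b := by
    intro a b h
    rw [hlb]
    simp only [h]
  -- the members of the family
  have hmem := fun i : ZMod p => hx (fun a => rk i (lb a)) (fun a b => ⟨fun h => by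
    have h1 := hinj i h
    rw [← hxl a, ← hxl b, h1], fun h => by rw [hlx a b h]⟩)
  choose u hu huu using hmem
  have hku : ∀ i a b, u i a = u i b ↔ x a = x b := by
    intro i a b
    have h1 := huu i a b
    constructor
    · intro h
      rw [ceq_eq h] at h1
      by_contra hne
      rw [if_neg hne] at h1
      exact absurd h1 (by simp)
    · intro h
      rw [if_pos h] at h1
      exact ceq_none h1
  obtain ⟨rkV, hrkV⟩ : ∃ rkV : ZMod p → V → ℕ, ∀ i a, rkV i (u i a) = rk i (lb a) := by
    refine ⟨fun i v => if h : ∃ b, u i b = v then rk i (lb (Classical.choose h)) else 0, ?_⟩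
    intro i a
    simp only
    have hex : ∃ b, u i b = u i a := ⟨a, rfl⟩
    rw [dif_pos hex, hlx _ a ((hku i _ a).1 (Classical.choose_spec hex))]
  have hord := fun i : ZMod p => hO σ V X 𝔸 M c N inv hs (arP σ M s) (u i) ℕ (rkV i) (by
    intro a b h
    rw [hrkV, hrkV] at h
    have h1 := hinj i h
    rw [hku, ← hxl a, ← hxl b, h1])
  choose x' hx' hlt using hord
  have hk' : ∀ i a b, x' i a = x' i b ↔ x a = x b := by
    intro i a b
    rw [← hku i a b]
    constructor
    · intro h
      have h1 := hx' i a b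
      rw [ceq_eq h] at h1
      exact ceq_none h1.symm
    · intro h
      have h1 := hx' i a b
      rw [ceq_eq h] at h1
      exact ceq_none h1
  refine ⟨x', fun i => typ_rel hs.typ s (hu i) (hx' i), hk', fun a b hab => ?_⟩
  have hlab : lb a ≠ lb b := by
    intro h
    apply hab
    rw [← hxl a, ← hxl b, h]
  have hxlb : x (lb a) ≠ x (lb b) := by rwa [hxl, hxl]
  have hcol : ∀ i, c (x' i a) (x' i b) = if x' i a < x' i b then (Q a b).1 else (Q a b).2 := by
    intro i
    have h1 := hx' i a b
    rw [huu i a b, if_neg hab] at h1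
    have h2 := (ceq_some h1).2
    rw [h2]
    have h3 := hlt i a b
    rw [hrkV, hrkV] at h3
    by_cases h4 : x' i a < x' i b
    · rw [if_pos h4, if_pos (h3.1 h4)]
    · rw [if_neg h4, if_neg (fun h => h4 (h3.2 h))]
  obtain ⟨j, hj⟩ : ∃ j : ZMod p, ∀ i, (rk i (lb a) < rk i (lb b) ↔
      (T (x a) (x b) = true ↔ (i - j).val < (p + 1) / 2)) := by
    by_cases hoab : T (x a) (x b) = true
    · obtain ⟨j, hj⟩ := hrk (lb a) (lb b) hlab (by
        rw [if_pos hxlb, hxl, hxl]
        exact hoab)
      refine ⟨j, fun i => ?_⟩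
      rw [hj i]
      simp [hoab]
    · have hoba : T (x b) (x a) = true := by
        rw [hT _ _ hab]
        simpa using hoab
      obtain ⟨j, hj⟩ := hrk (lb b) (lb a) hlab.symm (by
        rw [if_pos hxlb.symm, hxl, hxl]
        exact hoba)
      refine ⟨j, fun i => ?_⟩
      have h3 : rk i (lb a) < rk i (lb b) ↔ ¬ (i - j).val < (p + 1) / 2 := by
        rw [← hj i, not_lt]
        exact ⟨fun h => h.le, fun h => lt_of_le_of_ne h (fun h' => hlab (hinj i h'))⟩
      rw [h3]
      simp [hoab]
  refine ⟨j, fun i => ⟨?_, hcol i⟩⟩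
  rw [hlt i a b, hrkV, hrkV]
  exact hj i

end

/-- The two colours of a family. -/
def sl {X : Type} (q : Bool) (t : X × X) : X := if q = true then t.1 else t.2

/-- The bit of the position `i`. -/
def bit {p : ℕ} (q : Bool) (i : ZMod p) : Bool :=
  q == decide (i.val < (p + 1) / 2)

theorem pf_TO1 (hA : T_ALW) (hO : T_ORD) : T_TO1 := by
  intro σ V X _ 𝔸 M c N inv hs hcyc F lam rho hL
  choose P hP using hA
  obtain ⟨p, w, hp, hodd, hw⟩ := hcyc (∑ s : Option (Fin σ.m), P (arP σ M s))
  have hPs : ∀ s : Option (Fin σ.m), P (arP σ M s) ≤ p := fun s =>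
    (Finset.single_le_sum (f := fun s => P (arP σ M s)) (fun _ _ => Nat.zero_le _)
      (Finset.mem_univ s)).trans hp
  have hp0 : NeZero p := ⟨by rintro rfl; simp at hodd⟩
  refine ⟨fun r P q t t' => dual inv w r
      (fun i => F (bit P i = true) (q = true) (sl (bit P i) t) t'),
    fun r q t' => dual inv w r (fun _ => lam (q = true) t'),
    fun r P t => dual inv w r (fun i => rho (bit P i = true) (sl (bit P i) t)), ?_⟩
  intro s x y Q T hT hx hy rk hrk
  obtain ⟨x', hx', hk', hj⟩ := fam_ord hO hs s (hP (arP σ M s) p (hPs s) hodd) x Q T hT hx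
  have hlin := fun i : ZMod p => hL s (x' i) y (hx' i) hy
  choose z hz hzz using hlin
  have hker : ∀ i a b, z i a = z i b ↔ rk a = rk b := by
    intro i a b
    rw [hrk, ← hk' i]
    have h1 := hzz i a b
    by_cases hxa : x' i a = x' i b
    · by_cases hya : y a = y b
      · rw [ceq_eq hxa, ceq_eq hya] at h1
        have h2 : ceq c (z i a) (z i b) = none := h1
        exact ⟨fun _ => ⟨hxa, hya⟩, fun _ => ceq_none h2⟩
      · rw [ceq_eq hxa, ceq_ne hya] at h1
        have h2 : ceq c (z i a) (z i b) = some _ := h1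
        exact ⟨fun h => absurd h (ceq_some h2).1, fun h => absurd h.2 hya⟩
    · by_cases hya : y a = y b
      · rw [ceq_ne hxa, ceq_eq hya] at h1
        have h2 : ceq c (z i a) (z i b) = some _ := h1
        exact ⟨fun h => absurd h (ceq_some h2).1, fun h => absurd h.1 hxa⟩
      · rw [ceq_ne hxa, ceq_ne hya] at h1
        have h2 : ceq c (z i a) (z i b) = some _ := h1
        exact ⟨fun h => absurd h (ceq_some h2).1, fun h => absurd h.1 hxa⟩
  obtain ⟨y', hy', hyy⟩ := comb_w hs hw s z hz rk hker
  refine ⟨y', hy', fun a b => ?_⟩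
  rw [hyy a b]
  by_cases hxa : x a = x b
  · by_cases hya : y a = y b
    · rw [if_pos ((hrk a b).2 ⟨hxa, hya⟩), if_pos hxa, ceq_eq hya]
      rfl
    · rw [if_neg (fun h => hya ((hrk a b).1 h).2), if_pos hxa, ceq_ne hya]
      show some _ = some _
      congr 2
      funext i
      have h1 := hzz i a b
      rw [ceq_eq ((hk' i a b).2 hxa), ceq_ne hya] at h1
      have h2 := (ceq_some (t := lam (y a < y b) (c (y a) (y b))) h1).2
      rw [h2]
      simp
  · obtain ⟨j, hj⟩ := hj a b hxa
    have hxi : ∀ i, x' i a ≠ x' i b := fun i h => hxa ((hk' i a b).1 h)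
    have hbit : ∀ i, (x' i a < x' i b) = (bit (T (x a) (x b)) (i - j) = true) := by
      intro i
      apply propext
      rw [(hj i).1]
      unfold bit
      cases T (x a) (x b) <;> simp
    have hcol : ∀ i, c (x' i a) (x' i b) = sl (bit (T (x a) (x b)) (i - j)) (Q a b) := by
      intro i
      rw [(hj i).2]
      unfold sl
      simp only [hbit i]
    by_cases hya : y a = y b
    · rw [if_neg (fun h => hxa ((hrk a b).1 h).1), if_neg hxa, ceq_eq hya]
      show some _ = some _
      congr 1
      refine Eq.trans ?_ (shift_dual hw inv _ _ j)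
      congr 1
      funext i
      have h1 := hzz i a b
      rw [ceq_ne (hxi i), ceq_eq hya] at h1
      have h2 := (ceq_some (t := rho (x' i a < x' i b) (c (x' i a) (x' i b))) h1).2
      rw [h2, hcol i, hbit i]
    · rw [if_neg (fun h => hxa ((hrk a b).1 h).1), if_neg hxa, ceq_ne hya]
      show some _ = some _
      congr 1
      refine Eq.trans ?_ (shift_dual hw inv _ _ j)
      congr 1
      funext i
      have h1 := hzz i a b
      rw [ceq_ne (hxi i), ceq_ne hya] at h1
      have h2 := (ceq_some (t := F (x' i a < x' i b) (y a < y b) (c (x' i a) (x' i b))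
        (c (y a) (y b))) h1).2
      rw [h2, hcol i, hbit i]
      simp

theorem pf_TO2 (hA : T_ALW) (hO : T_ORD) : T_TO2 := by
  intro σ V X _ 𝔸 M c N inv hs hcyc F lam rho hL
  choose P hP using hA
  obtain ⟨p, w, hp, hodd, hw⟩ := hcyc (∑ s : Option (Fin σ.m), P (arP σ M s))
  have hPs : ∀ s : Option (Fin σ.m), P (arP σ M s) ≤ p := fun s =>
    (Finset.single_le_sum (f := fun s => P (arP σ M s)) (fun _ _ => Nat.zero_le _)
      (Finset.mem_univ s)).trans hp
  have hp0 : NeZero p := ⟨by rintro rfl; simp at hodd⟩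
  refine ⟨fun r P q t t' => dual inv w r (fun i => F r P (bit q i) t (sl (bit q i) t')),
    fun r q t' => dual inv w r (fun i => lam r (bit q i) (sl (bit q i) t')),
    fun r P t => dual inv w r (fun _ => rho r P t), ?_⟩
  intro s x y Q Q' T T' hT hT' hx hy rk hrk
  obtain ⟨y₁, hy₁, hk', hj⟩ := fam_ord hO hs s (hP (arP σ M s) p (hPs s) hodd) y Q' T' hT' hy
  have hlin := fun i : ZMod p => hL s x (y₁ i) Q T hT hx (hy₁ i) rk (fun a b => by
    rw [hrk, hk' i])
  choose z hz hzz using hlin
  have hker : ∀ i a b, z i a = z i b ↔ rk a = rk b := by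
    intro i a b
    rw [hrk]
    have h1 := hzz i a b
    by_cases hxa : x a = x b
    · by_cases hya : y a = y b
      · rw [if_pos hxa, ceq_eq ((hk' i a b).2 hya)] at h1
        have h2 : ceq c (z i a) (z i b) = none := h1
        exact ⟨fun _ => ⟨hxa, hya⟩, fun _ => ceq_none h2⟩
      · rw [if_pos hxa, ceq_ne (fun h => hya ((hk' i a b).1 h))] at h1
        have h2 : ceq c (z i a) (z i b) = some _ := h1
        exact ⟨fun h => absurd h (ceq_some h2).1, fun h => absurd h.2 hya⟩
    · by_cases hya : y a = y b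
      · rw [if_neg hxa, ceq_eq ((hk' i a b).2 hya)] at h1
        have h2 : ceq c (z i a) (z i b) = some _ := h1
        exact ⟨fun h => absurd h (ceq_some h2).1, fun h => absurd h.1 hxa⟩
      · rw [if_neg hxa, ceq_ne (fun h => hya ((hk' i a b).1 h))] at h1
        have h2 : ceq c (z i a) (z i b) = some _ := h1
        exact ⟨fun h => absurd h (ceq_some h2).1, fun h => absurd h.1 hxa⟩
  obtain ⟨y', hy', hyy⟩ := comb_w hs hw s z hz rk hker
  refine ⟨y', hy', fun a b => ?_⟩
  rw [hyy a b]
  by_cases hya : y a = y b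
  · by_cases hxa : x a = x b
    · rw [if_pos ((hrk a b).2 ⟨hxa, hya⟩), if_pos hxa, if_pos hya]
      rfl
    · rw [if_neg (fun h => hxa ((hrk a b).1 h).1), if_neg hxa, if_pos hya]
      show some _ = some _
      congr 2
      funext i
      have h1 := hzz i a b
      rw [if_neg hxa, ceq_eq ((hk' i a b).2 hya)] at h1
      have h2 := (ceq_some (t := rho (decide (rk a < rk b)) (T (x a) (x b)) (Q a b)) h1).2
      rw [h2]
  · obtain ⟨j, hj⟩ := hj a b hya
    have hyi : ∀ i, y₁ i a ≠ y₁ i b := fun i h => hya ((hk' i a b).1 h)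
    have hbit : ∀ i, decide (y₁ i a < y₁ i b) = bit (T' (y a) (y b)) (i - j) := by
      intro i
      rw [Bool.eq_iff_iff, decide_eq_true_iff, (hj i).1]
      unfold bit
      cases T' (y a) (y b) <;> simp
    have hcol : ∀ i, c (y₁ i a) (y₁ i b) = sl (bit (T' (y a) (y b)) (i - j)) (Q' a b) := by
      intro i
      rw [(hj i).2, ← hbit i]
      unfold sl
      simp
    by_cases hxa : x a = x b
    · rw [if_neg (fun h => hya ((hrk a b).1 h).2), if_pos hxa, if_neg hya]
      show some _ = some _
      congr 1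
      refine Eq.trans ?_ (shift_dual hw inv _ _ j)
      congr 1
      funext i
      have h1 := hzz i a b
      rw [if_pos hxa, ceq_ne (hyi i)] at h1
      have h2 := (ceq_some (t := lam (decide (rk a < rk b)) (decide (y₁ i a < y₁ i b))
        (c (y₁ i a) (y₁ i b))) h1).2
      rw [h2, hcol i, hbit i]
    · rw [if_neg (fun h => hxa ((hrk a b).1 h).1), if_neg hxa, if_neg hya]
      show some _ = some _
      congr 1
      refine Eq.trans ?_ (shift_dual hw inv _ _ j)
      congr 1
      funext i
      have h1 := hzz i a b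
      rw [if_neg hxa, ceq_ne (hyi i)] at h1
      have h2 := (ceq_some (t := F (decide (rk a < rk b)) (T (x a) (x b))
        (decide (y₁ i a < y₁ i b)) (Q a b) (c (y₁ i a) (y₁ i b))) h1).2
      rw [h2, hcol i, hbit i]

end Pool.Agent.H44.EQD.TO1
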