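import Pool.Agent.H44.EQD.Basic

/-!
# Copies of polymorphisms
-/

set_option autoImplicit false

namespace Pool.Agent.H44.EQD.TRF

open Pool.Agent.H44.EQD
open Pool.Agent.H44.EQ (ceq TypeClosed Const PolMap TInv BinPol Inj2 ZA JSet Twin sel kap Lift
  T_MIN T_CAS T_CNG T_ALW)
open Pool.Agent.H53.GC Pool.Agent.H53.NR Pool.Agent.H68.BP Pool.Agent.H58.SF
open Classical

/-- A map which is strictly monotone and preserves the colours on `K` preserves the types of the
pairs of elements of `K`. -/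
theorem ceq_copy {V X : Type} [LinearOrder V] {c : V → V → X} {inv : X → X} (hs : ∀ x y, c y x = inv (c x y))
    {K : Finset V} {g : V → V} (h1 : ∀ x ∈ K, ∀ y ∈ K, x < y → g x < g y)
    (h2 : ∀ x ∈ K, ∀ y ∈ K, x ≤ y → c (g x) (g y) = c x y) {x y : V} (hx : x ∈ K) (hy : y ∈ K) :
    ceq c x y = ceq c (g x) (g y) := by
  unfold ceq
  rcases lt_trichotomy x y with h | h | h
  · rw [if_neg h.ne, if_neg (h1 x hx y hy h).ne, h2 x hx y hy h.le]
  · subst h
    rw [if_pos rfl, if_pos rfl]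
  · rw [if_neg h.ne', if_neg (h1 y hy x hx h).ne', hs y x, hs (g y) (g x), h2 y hy x hx h.le]

theorem pf_TRF : T_TRF := by
  intro σ V X _ 𝔸 M c N inv hS I _ h h' hP hL
  have := Fintype.ofFinite I
  refine ⟨fun v => ?_, fun s v hv => ?_⟩
  · obtain ⟨g, -, -, hg⟩ := hL (Finset.univ.image v)
    have hv : ∀ i, v i ∈ Finset.univ.image v :=
      fun i => Finset.mem_image_of_mem v (Finset.mem_univ i)
    rw [hg v v hv hv, hP.refl]
  · obtain ⟨g, h1, h2, hg⟩ := hL (Finset.univ.image fun p : Fin (arP σ M s) × I => v p.1 p.2)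
    have hK : ∀ a i, v a i ∈ Finset.univ.image fun p : Fin (arP σ M s) × I => v p.1 p.2 :=
      fun a i => Finset.mem_image.2 ⟨(a, i), Finset.mem_univ _, rfl⟩
    have hr : ∀ i, relP 𝔸 M s (fun a => g (v a i)) := by
      intro i
      cases s with
      | none => trivial
      | some l =>
        exact hS.typ l (fun a => v a i) _ (hv i) fun a b => ceq_copy hS.sym h1 h2 (hK a i) (hK b i)
    obtain ⟨x, hx, hxx⟩ := hP.rel s (fun a i => g (v a i)) hr
    refine ⟨x, hx, fun a b => ?_⟩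
    rw [hxx a b, hg (v a) (v b) (hK a) (hK b)]

end Pool.Agent.H44.EQD.TRF
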