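import Pool.Agent.H44.EQD.Basic

/-!
# Two determining positions give binary injections
-/

set_option autoImplicit false
set_option linter.unusedVariables false

namespace Pool.Agent.H44.EQD.TWO

open Pool.Agent.H68.BP Pool.Agent.H58.SF Pool.Agent.H53.GC Pool.Agent.H53.NR Pool.Agent.H44.EQ
open Classical

theorem pf_TWO (hC : T_CFG) (hM : T_CMP) : T_TWO := by
  intro σ V X _ 𝔸 M c N inv hs h hp ht κ J hJ l l' hl hl' hne n q hq
  obtain ⟨f, hf1, hf2⟩ := hC σ V X 𝔸 M c N inv hs (Set.range κ × Fin n) (ℕ ×ₗ Fin n)
    (fun w => toLex ((w.1 : ℕ), w.2))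
    (fun w w' => if w.1 = w'.1 then c (q w.2) (q w'.2) else N)
    (by
      intro w w' hw
      have h1 : ((w.1 : ℕ), w.2) = ((w'.1 : ℕ), w'.2) := toLex.injective hw
      have h2 := congrArg Prod.fst h1
      have h3 := congrArg Prod.snd h1
      exact Prod.ext (Subtype.ext h2) h3)
    (by
      intro w w'
      by_cases e : w.1 = w'.1
      · simp only [e, if_true]; exact hs.sym _ _
      · have e' : ¬ w'.1 = w.1 := fun h => e h.symm
        simp only [e, e', if_false]
        exact hs.invN.symm)
    (by
      intro w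
      simp only [if_true]; exact hs.diag _)
    (by
      intro K hK
      refine ⟨fun w => q w.2, ?_, ?_⟩
      · intro x hx y hy hxy
        by_contra hne'
        have h1 := hK x hx y hy hne'
        by_cases e : x.1 = y.1
        · exact hne' (Prod.ext e (hq hxy))
        · simp only [e, if_false] at h1
          exact h1 rfl
      · intro x hx y hy hxy
        have h1 := hK x hx y hy hxy
        by_cases e : x.1 = y.1
        · simp only [e, if_true]
        · simp only [e, if_false] at h1
          exact absurd rfl h1)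
  have lt1 : ∀ (i j : Set.range κ) (a b : Fin n), (i : ℕ) < j → f (i, a) < f (j, b) := by
    intro i j a b hij
    apply hf1
    exact Prod.Lex.toLex_lt_toLex.2 (Or.inl hij)
  have lt2 : ∀ (i : Set.range κ) (a b : Fin n), a < b → f (i, a) < f (i, b) := by
    intro i a b hab
    apply hf1
    exact Prod.Lex.toLex_lt_toLex.2 (Or.inr ⟨rfl, hab⟩)
  have inj : ∀ (i : Set.range κ) (a b : Fin n), f (i, a) = f (i, b) → a = b := by
    intro i a b hab
    rcases lt_trichotomy a b with h1 | h1 | h1
    · exact absurd hab (ne_of_lt (lt2 i a b h1))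
    · exact h1
    · exact absurd hab.symm (ne_of_lt (lt2 i b a h1))
  have free : ∀ (i j : Set.range κ) (a b : Fin n), (i : ℕ) < j → c (f (i, a)) (f (j, b)) = N := by
    intro i j a b hij
    rw [hf2]
    have e : ¬ i = j := fun h => by rw [h] at hij; exact lt_irrefl _ hij
    simp only [e, if_false]
  -- the blocks
  let pr : Fin n × Fin n → Fin 6 → Fin n := fun p m => if κ m = κ l then p.1 else p.2
  let z : Fin n × Fin n → Fin 6 → V := fun p m => f (⟨κ m, m, rfl⟩, pr p m)
  obtain ⟨δ, hδ, hδ'⟩ := hM σ V X 𝔸 M c N inv hs (Fin 6) h hp n q (fun m p => q (pr p m)) z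
    (by
      intro m s a b ha hb
      by_cases e : κ m = κ l
      · simpa only [pr, e, if_true] using ha
      · simpa only [pr, e, if_false] using hb)
    (by
      intro m p p'
      have e1 : (z p m = z p' m) ↔ q (pr p m) = q (pr p' m) := by
        constructor
        · intro h1
          rw [inj _ _ _ h1]
        · intro h1
          simp only [z]
          rw [hq h1]
      have e2 : c (z p m) (z p' m) = c (q (pr p m)) (q (pr p' m)) := by
        simp only [z]
        rw [hf2]
        simp only [if_true]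
      unfold ceq
      by_cases e : q (pr p m) = q (pr p' m)
      · rw [if_pos (e1.2 e), if_pos e]
      · rw [if_neg (fun h => e (e1.1 h)), if_neg e, e2])
  have prc : ∀ (p : Fin n × Fin n) (m m' : Fin 6), κ m = κ m' → pr p m = pr p m' := by
    intro p m m' e
    simp only [pr, e]
  have zc : ∀ (p : Fin n × Fin n) (m m' : Fin 6), κ m = κ m' → z p m = z p m' := by
    intro p m m' e
    simp only [z]
    rw [prc p m m' e]
    have e3 : (⟨κ m, m, rfl⟩ : Set.range κ) = ⟨κ m', m', rfl⟩ := Subtype.ext e
    rw [e3]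
  have za : ∀ p p', ZA c N κ (z p) (z p') := by
    intro p p'
    refine ⟨fun m m' e => ⟨zc p m m' e, zc p' m m' e⟩, fun m m' e => ?_, fun m m' e => ?_⟩
    · exact ⟨lt1 _ _ _ _ e, lt1 _ _ _ _ e, lt1 _ _ _ _ e, lt1 _ _ _ _ e⟩
    · exact ⟨free _ _ _ _ e, free _ _ _ _ e, free _ _ _ _ e, free _ _ _ _ e⟩
  refine ⟨δ, hδ, fun p p' e => ?_⟩
  have h1 := (hJ (z p) (z p') (za p p')).1 ((hδ' p p').1 e)
  have h2 := inj _ _ _ (h1 l hl)
  have h3 := inj _ _ _ (h1 l' hl')
  have hne' : ¬ κ l' = κ l := fun h => hne h.symm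
  simp only [pr, if_true] at h2
  simp only [pr, hne', if_false] at h3
  exact Prod.ext h2 h3

end Pool.Agent.H44.EQD.TWO
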