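import Pool.Agent.H44.EQD.Glue
import Pool.Agent.H44.EQD.BKS
import Pool.Agent.H44.EQD.CFG
import Pool.Agent.H44.EQD.CHN
import Pool.Agent.H44.EQD.CMP
import Pool.Agent.H44.EQD.CONN
import Pool.Agent.H44.EQD.EQV
import Pool.Agent.H44.EQD.HHH
import Pool.Agent.H44.EQD.JEX
import Pool.Agent.H44.EQD.JNE
import Pool.Agent.H44.EQD.LIN
import Pool.Agent.H44.EQD.LMT
import Pool.Agent.H44.EQD.LTR
import Pool.Agent.H44.EQD.NC2
import Pool.Agent.H44.EQD.ORD
import Pool.Agent.H44.EQD.SEP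
import Pool.Agent.H44.EQD.TO1
import Pool.Agent.H44.EQD.TRF
import Pool.Agent.H44.EQD.TWO
import Pool.Agent.H44.EQ.All

/-!
# The binary polymorphism of the template, directed colours: all the parts
-/

set_option autoImplicit false

namespace Pool.Agent.H44.EQD

theorem all_CFG : T_CFG := CFG.pf_CFG

theorem all_RLZ : T_RLZ := CFG.pf_RLZ

theorem all_EQV : T_EQV := EQV.pf_EQV

theorem all_NC : T_NC := asm_NC (EQV.pf_NC1 all_CFG all_EQV) (NC2.pf_NC2 all_CFG all_EQV)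

theorem all_CMP : T_CMP := CMP.pf_CMP all_RLZ

theorem all_ORD : T_ORD := ORD.pf_ORD all_CFG

theorem all_JNE : T_JNE := JNE.pf_JNE all_CFG all_NC

theorem all_CHN : T_CHN := CHN.pf_CHN all_CFG all_EQV

theorem all_SEP : T_SEP := SEP.pf_SEP all_CFG all_EQV all_NC

theorem all_JEX : T_JEX := JEX.pf_JEX all_CHN all_EQV

theorem all_INJ : T_INJ :=
  asm_INJ all_NC all_JEX all_JNE (TWO.pf_TWO all_CFG all_CMP) all_SEP
    Pool.Agent.H60.EQ.pf_MIN all_CMP (CONN.pf_CON all_CFG)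
    (LTR.pf_LTR all_CFG all_JNE) Pool.Agent.H18.EQ.pf_CAS

theorem all_HHH : T_HHH := HHH.pf_HHH Pool.Agent.H21.EQ.pf_CNG TRF.pf_TRF

/-- The binary polymorphism of the template. -/
theorem all_GPO : Pool.Agent.H57.EQD.T_GPO :=
  glue_GPO all_INJ Pool.Agent.H21.EQ.pf_CNG TRF.pf_TRF LMT.pf_LMT
    (LIN.pf_LIN all_CFG all_EQV) (TO1.pf_TO1 Pool.Agent.H49.EQ.pf_ALW all_ORD)
    (TO1.pf_TO2 Pool.Agent.H49.EQ.pf_ALW all_ORD) Pool.Agent.H44.EQ.all_NR3

/-- Blocks without common elements. -/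
theorem all_NNC : Pool.Agent.H57.EQD.T_NNC := glue_NNC all_NC

/-- The canonical Olšák map. -/
theorem all_NOL : Pool.Agent.H57.EQD.T_NOL :=
  glue_NOL all_HHH all_RLZ Pool.Agent.H44.EQ.all_NR3

/-- Systems of blocks. -/
theorem all_BKS : Pool.Agent.H57.EQD.T_BKS := BKS.pf_BKSD Pool.Agent.H57.EQD.pf_SYS

end Pool.Agent.H44.EQD
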