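import Pool.Agent.H44.EQD.Targets
import Pool.Agent.H44.EQ.Asm

/-!
# Assembly: the binary injection, directed colours
-/

set_option autoImplicit false
set_option linter.unusedVariables false

namespace Pool.Agent.H44.EQD

open Pool.Agent.H68.BP Pool.Agent.H58.SF Pool.Agent.H53.GC Pool.Agent.H53.NR
open Pool.Agent.H44.EQ (ceq TypeClosed Const PolMap TInv BinPol Inj2 ZA JSet Twin sel kap Lift
  T_MIN T_CAS T_CNG T_ALW kap_empty kap_univ pat_cases)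
open Classical

theorem asm_NC (h1 : T_NC1) (h2 : T_NC2) : T_NC := by
  intro σ V X _ 𝔸 M c N inv hs hC h hp ht z z' hz hn
  obtain ⟨u, u', hu, hn'⟩ := h1 σ V X 𝔸 M c N inv hs h hp ht z z' hz hn
  exact hC (h2 σ V X 𝔸 M c N inv hs h hp ht z' u u' hu hn')

theorem asm_INJ (hNC : T_NC) (hJEX : T_JEX) (hJNE : T_JNE) (hTWO : T_TWO) (hSEP : T_SEP)
    (hMIN : T_MIN) (hCMP : T_CMP) (hCON : T_CON) (hLTR : T_LTR) (hCAS : T_CAS) : T_INJ := by
  intro σ V X _ 𝔸 M c N inv hs hC h hp ht hex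
  by_contra hI
  -- the determining positions
  choose jj hsat hj using hJEX σ V X 𝔸 M c N inv hs h hp ht
  have hone : ∀ κ : Fin 6 → ℕ, ∀ l ∈ jj κ, ∀ l' ∈ jj κ, κ l = κ l' := by
    intro κ l hl l' hl'
    by_contra hne
    exact hI (hTWO σ V X 𝔸 M c N inv hs h hp ht κ (jj κ) (hj κ) l l' hl hl' hne)
  have hne : ∀ κ : Fin 6 → ℕ, (jj κ).Nonempty := fun κ =>
    hJNE σ V X 𝔸 M c N inv hs hC h hp ht κ (jj κ) (hj κ)
  -- the generic shape
  obtain ⟨i₀, hi₀⟩ := hne (fun l => l.val + 1)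
  have hJ0 : jj (fun l => l.val + 1) = {i₀} := by
    apply Set.eq_singleton_iff_unique_mem.2
    refine ⟨hi₀, fun l hl => ?_⟩
    have := hone _ l hl i₀ hi₀
    exact Fin.ext (by simpa using this)
  -- the special shape
  obtain ⟨r, hr, hS⟩ := hLTR σ V X 𝔸 M c N inv hs hC h hp ht hex (fun r => jj (pat r 0 7))
    (fun r => hj _) (fun r => hsat _) (fun r => hone _) i₀
  obtain ⟨n, q, γ₀, γ₁, p₀, p₀', p₁, p₁', U, hq, hb₀, hb₁, e1, e2, e3, e4, hU, hU'⟩ :=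
    hMIN σ V 𝔸 hI
  have hk0 : kap (pat r 0 7) ∅ = fun l => l.val + 1 := funext (kap_empty _)
  obtain ⟨s₀, s₁, hs'⟩ := hCAS V (Fin n × Fin n) γ₀ γ₁ p₀ p₀' p₁ p₁' (pat r 0 7)
    (jj (pat r 0 7)) i₀ (fun T => jj (kap (pat r 0 7) T)) (pat_cases r) hS hr
    (fun T => hsat _) (fun T => hone _) (by simp only [hk0]; exact hJ0)
    (by simp only [kap_univ]) e1 e2 e3 e4
  obtain ⟨z, hz1, hz2, hz3⟩ := hCON σ V X 𝔸 M c N inv hs (Fin n × Fin n) γ₀ γ₁ (pat r 0 7)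
    (jj (pat r 0 7)) s₀ s₁ (pat_cases r) hS
  obtain ⟨δ, hδ, hδ'⟩ := hCMP σ V X 𝔸 M c N inv hs (Fin 6) h hp n q
    (fun l => sel (jj (pat r 0 7)) γ₀ γ₁ l) z (by
      intro l
      by_cases hl : l ∈ jj (pat r 0 7)
      · simpa [sel, hl] using hb₀
      · simpa [sel, hl] using hb₁) hz1
  obtain ⟨u, hu, hdu⟩ := hU δ hδ
  have hnone := (hδ' u.1 u.2).1 hdu
  -- the pairs which are treated by the determining positions
  have key : ∀ u ∈ ({(p₀, p₀'), (p₁, p₁')} : Set ((Fin n × Fin n) × (Fin n × Fin n))),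
      h (z u.1) (z u.2) ≠ none := by
    intro u hu
    refine hSEP σ V X 𝔸 M c N inv hs hC h hp ht _ _ _ _ (hj _) (hj _) (hsat _) (hsat _) (z u.1)
      (z u.2) (hz2 u.1) (hz2 u.2) ?_
    intro l hl l' hl' he
    exact hs' u hu l hl l' hl' ((hz3 u.1 u.2 l l').1 he)
  rcases hU' u hu with h1 | h1 | h1
  · exact key u (by simp [h1]) hnone
  · exact key u (by simp [h1]) hnone
  · refine hNC σ V X 𝔸 M c N inv hs hC h hp ht (z u.1) (z u.2) (fun l l' he => ?_) hnone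
    obtain ⟨h2, h3, -⟩ := (hz3 u.1 u.2 l l').1 he
    by_cases hl : l ∈ jj (pat r 0 7)
    · have hl' := h2.1 hl
      simp only [sel, hl, hl', if_true] at h3
      exact h1.1 h3
    · have hl' : l' ∉ jj (pat r 0 7) := fun h' => hl (h2.2 h')
      simp only [sel, hl, hl', if_false] at h3
      exact h1.2 h3

/-- Binary injections for families and tournaments, from a canonical Olšák map. -/
theorem asm_FUL (hINJ : T_INJ) (hCNG : T_CNG) (hTRF : T_TRF) (hLMT : T_LMT)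
    (hLIN : T_LIN) (hTO1 : T_TO1) (hTO2 : T_TO2) {σ : Sig} {V X : Type} [LinearOrder V]
    {𝔸 : Str σ V} {M : ℕ} {c : V → V → X} {N : X} {inv : X → X}
    (hs : SetD 𝔸 M c N inv) (hC : ¬ Const 𝔸)
    (hR : RamseyFin c) (h : (Fin 6 → V) → (Fin 6 → V) → Option X) (hp : PolMap 𝔸 M c (Fin 6) h)
    (ht : TInv c h)
    (hex : ∀ (r : Fin 3) (x y x' y' : V), h (pat r x y) (pat r x' y') =
      h (pat 0 x y) (pat 0 x' y'))
    (hw : ∀ P₀ : ℕ, ∃ (p : ℕ) (w : (ZMod p → X) → X), P₀ ≤ p ∧ Odd p ∧ CycPolD 𝔸 M c p w) :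
    ∃ F lam rho, FullFam 𝔸 M c F lam rho := by
  have hI := hINJ σ V X 𝔸 M c N inv hs hC h hp ht hex
  obtain ⟨h2, hp2, hi2⟩ := hLMT σ V X 𝔸 M c N inv hs hI
  have := hs.fin
  obtain ⟨h3, ht3, hl3⟩ := hCNG V X (Fin 2) (Option X) c hR h2
  have hp3 := hTRF σ V X 𝔸 M c N inv hs (Fin 2) h2 h3 hp2 hl3
  have hi3 : ∀ v w, v ≠ w → h3 v w ≠ none := by
    intro v w hvw hn
    obtain ⟨g, hg1, hg2, hg3⟩ := hl3 (Finset.univ.image v ∪ Finset.univ.image w)
    rw [hg3 v w (fun i => by simp) (fun i => by simp)] at hn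
    refine hi2 _ _ ?_ hn
    intro he
    apply hvw
    funext i
    have hi : g (v i) = g (w i) := congrFun he i
    rcases lt_trichotomy (v i) (w i) with h' | h' | h'
    · exact absurd hi (ne_of_lt (hg1 _ (by simp) _ (by simp) h'))
    · exact h'
    · exact absurd hi.symm (ne_of_lt (hg1 _ (by simp) _ (by simp) h'))
  obtain ⟨F, lam, rho, hF⟩ := hLIN σ V X 𝔸 M c N inv hs h3 hp3 ht3 hi3
  obtain ⟨F', lam', rho', hF'⟩ := hTO1 σ V X 𝔸 M c N inv hs hw F lam rho hF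
  exact hTO2 σ V X 𝔸 M c N inv hs hw F' lam' rho' hF'

end Pool.Agent.H44.EQD
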