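import Pool.Agent.H44.EQD.Targets

/-!
# Basic facts on directed colours
-/

set_option autoImplicit false
set_option linter.unusedVariables false

namespace Pool.Agent.H44.EQD

open Pool.Agent.H68.BP Pool.Agent.H58.SF Pool.Agent.H53.GC Pool.Agent.H53.NR
open Pool.Agent.H44.EQ (ceq TypeClosed Const PolMap TInv BinPol Inj2 ZA JSet Twin sel kap Lift
  T_MIN T_CAS T_CNG T_ALW)
open Classical

section

variable {σ : Sig} {V X : Type} [LinearOrder V] {𝔸 : Str σ V} {M : ℕ} {c : V → V → X} {N : X}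
  {inv : X → X}

theorem SetD.invN (hs : SetD 𝔸 M c N inv) : inv N = N := by
  obtain ⟨x⟩ := hs.ne
  have h := hs.sym x x
  rw [hs.diag] at h
  exact h.symm

theorem SetD.inv_inv (hs : SetD 𝔸 M c N inv) (x y : V) : inv (inv (c x y)) = c x y := by
  rw [← hs.sym, ← hs.sym]

theorem SetD.eq_N (hs : SetD 𝔸 M c N inv) {x y : V} (h : c x y = N) : c y x = N := by
  rw [hs.sym, h, hs.invN]

theorem SetD.ceq_symm (hs : SetD 𝔸 M c N inv) (x y : V) : ceq c y x = (ceq c x y).map inv := by
  unfold ceq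
  by_cases h : x = y
  · rw [if_pos h, if_pos h.symm]
    rfl
  · rw [if_neg h, if_neg (Ne.symm h), hs.sym]
    rfl

theorem SetD.col_symm (hs : SetD 𝔸 M c N inv) {x y x' y' : V} (h : c x y = c x' y') :
    c y x = c y' x' := by
  rw [hs.sym x y, hs.sym x' y', h]

end

end Pool.Agent.H44.EQD
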