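import Pool.Agent.H44.EQ.Targets
import Pool.Agent.H57.EQ.Defs

/-!
# First-order reducts of structures with directed colours: definitions

As in `Pool.Agent.H44.EQ`, but the colour of `(y, x)` is `inv (c x y)`.
-/

set_option autoImplicit false

namespace Pool.Agent.H44.EQD

open Pool.Agent.H68.BP Pool.Agent.H58.SF Pool.Agent.H53.GC Pool.Agent.H53.NR
open Pool.Agent.H44.EQ Pool.Agent.H57.EQ
open Classical

section defs

variable {V X : Type} {σ : Sig}

/-- The hypotheses on the coloured order `(V, <, c)` and on the structure `𝔸`. -/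
structure SetD [LinearOrder V] (𝔸 : Str σ V) (M : ℕ) (c : V → V → X) (N : X) (inv : X → X) :
    Prop where
  fin : Finite X
  ne : Nonempty V
  three : 3 ≤ M
  sym : ∀ x y, c y x = inv (c x y)
  diag : ∀ x, c x x = N
  univ : Universal c (fun _ _ => N) M
  typ : TypeClosed 𝔸 c

/-- The combination of types given by `F` (both coordinates different), `lam` (the first coordinate
equal) and `rho` (the second coordinate equal); the bits `p` and `q` say whether the pairs of the
first and the second coordinates are ascending. -/
noncomputable def combD (F : Prop → Prop → X → X → X) (lam rho : Prop → X → X) (p q : Prop) :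
    Option X → Option X → Option X
  | none, none => none
  | none, some t => some (lam q t)
  | some t, none => some (rho p t)
  | some t, some t' => some (F p q t t')

/-- `𝔸` has a binary injective polymorphism with the types `F`, `lam`, `rho`. -/
def LinInjD [LinearOrder V] (𝔸 : Str σ V) (M : ℕ) (c : V → V → X)
    (F : Prop → Prop → X → X → X) (lam rho : Prop → X → X) : Prop :=
  ∀ (s : Option (Fin σ.m)) (x y : Fin (arP σ M s) → V), relP 𝔸 M s x → relP 𝔸 M s y →
    ∃ z, relP 𝔸 M s z ∧ ∀ a b, ceq c (z a) (z b) =
      combD F lam rho (x a < x b) (y a < y b) (ceq c (x a) (x b)) (ceq c (y a) (y b))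

/-- `Q` is a family of tuples in the relation `s` with the kernel of `x`, indexed by the linear
orders `rk` on the classes: the colour at `(a, b)` is `(Q a b).1` if `a` is below `b`, and
`(Q a b).2` if `b` is below `a`. -/
def FamR (𝔸 : Str σ V) (M : ℕ) (c : V → V → X) (s : Option (Fin σ.m))
    (x : Fin (arP σ M s) → V) (Q : Fin (arP σ M s) → Fin (arP σ M s) → X × X) : Prop :=
  ∀ rk : Fin (arP σ M s) → ℕ, (∀ a b, rk a = rk b ↔ x a = x b) →
    ∃ z, relP 𝔸 M s z ∧ ∀ a b, ceq c (z a) (z b) =
      if x a = x b then none else some (if rk a < rk b then (Q a b).1 else (Q a b).2)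

/-- The combination of a family of types (first coordinate) and a type (second coordinate); `r` says
whether the result is ascending, `p` is the tournament in the first coordinate, `q` says whether the
second coordinate is ascending. -/
def combH (F : Bool → Bool → Bool → X × X → X → X) (lam : Bool → Bool → X → X)
    (rho : Bool → Bool → X × X → X) (r p q : Bool) : Option (X × X) → Option X → Option X
  | none, none => none
  | none, some t => some (lam r q t)
  | some t, none => some (rho r p t)
  | some t, some t' => some (F r p q t t')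

/-- The combination of two families of types. -/
def combF (F : Bool → Bool → Bool → X × X → X × X → X) (lam rho : Bool → Bool → X × X → X)
    (r p q : Bool) : Option (X × X) → Option (X × X) → Option X
  | none, none => none
  | none, some t => some (lam r q t)
  | some t, none => some (rho r p t)
  | some t, some t' => some (F r p q t t')

/-- Families and tournaments in the first coordinate. -/
def HalfFam [LinearOrder V] (𝔸 : Str σ V) (M : ℕ) (c : V → V → X)
    (F : Bool → Bool → Bool → X × X → X → X) (lam : Bool → Bool → X → X)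
    (rho : Bool → Bool → X × X → X) : Prop :=
  ∀ (s : Option (Fin σ.m)) (x y : Fin (arP σ M s) → V)
    (Q : Fin (arP σ M s) → Fin (arP σ M s) → X × X) (T : V → V → Bool), Tour T →
    FamR 𝔸 M c s x Q → relP 𝔸 M s y →
    ∀ rk : Fin (arP σ M s) → ℕ, (∀ a b, rk a = rk b ↔ (x a = x b ∧ y a = y b)) →
      ∃ z, relP 𝔸 M s z ∧ ∀ a b, ceq c (z a) (z b) =
        combH F lam rho (decide (rk a < rk b)) (T (x a) (x b)) (decide (y a < y b))
          (if x a = x b then none else some (Q a b)) (ceq c (y a) (y b))

/-- Families and tournaments in both coordinates. -/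
def FullFam (𝔸 : Str σ V) (M : ℕ) (c : V → V → X)
    (F : Bool → Bool → Bool → X × X → X × X → X) (lam rho : Bool → Bool → X × X → X) : Prop :=
  ∀ (s : Option (Fin σ.m)) (x y : Fin (arP σ M s) → V)
    (Q Q' : Fin (arP σ M s) → Fin (arP σ M s) → X × X) (T T' : V → V → Bool), Tour T → Tour T' →
    FamR 𝔸 M c s x Q → FamR 𝔸 M c s y Q' →
    ∀ rk : Fin (arP σ M s) → ℕ, (∀ a b, rk a = rk b ↔ (x a = x b ∧ y a = y b)) →
      ∃ z, relP 𝔸 M s z ∧ ∀ a b, ceq c (z a) (z b) =
        combF F lam rho (decide (rk a < rk b)) (T (x a) (x b)) (T' (y a) (y b))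
          (if x a = x b then none else some (Q a b)) (if y a = y b then none else some (Q' a b))

/-- `w` is a cyclic polymorphism of the injective part of `𝔸`, for pairs which are ascending in a
linear order `rk`. -/
structure CycPolD (𝔸 : Str σ V) (M : ℕ) (c : V → V → X) (p : ℕ) (w : (ZMod p → X) → X) :
    Prop where
  cyc : ∀ t, w (fun i => t (i + 1)) = w t
  rel : ∀ (s : Option (Fin σ.m)) (x : ZMod p → Fin (arP σ M s) → V), (∀ i, relP 𝔸 M s (x i)) →
    (∀ i j a b, x i a = x i b ↔ x j a = x j b) →
    ∀ rk : Fin (arP σ M s) → ℕ, (∀ a b, rk a = rk b ↔ x 0 a = x 0 b) →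
    ∃ y, relP 𝔸 M s y ∧ ∀ a b, (y a = y b ↔ x 0 a = x 0 b) ∧
      (rk a < rk b → c (y a) (y b) = w (fun i => c (x i a) (x i b)))

end defs

end Pool.Agent.H44.EQD
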