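import Pool.Agent.H44.EQD.Asm
import Pool.Agent.H44.EQD.Basic
import Pool.Agent.H57.EQD.Uv
import Pool.Agent.H68.GC.OLF0

/-!
# The binary polymorphism of the template, in the language of `Pool.Agent.H57.EQD`
-/

set_option autoImplicit false
set_option linter.unusedVariables false

namespace Pool.Agent.H44.EQD

open Pool.Agent.H68.BP Pool.Agent.H58.SF Pool.Agent.H53.GC Pool.Agent.H53.NR
open Pool.Agent.H57.EQ (Tour cD Olm ConstHom Same Cx TyInv)
open Pool.Agent.H57.EQD
open Pool.Agent.H44.EQ (ceq TypeClosed Const PolMap TInv BinPol Inj2 ZA JSet Twin sel kap Lift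
  T_MIN T_CAS T_CNG T_ALW)
open Classical Function

section glue

variable {V X : Type} {σ : Sig}

theorem ceq_cD {c : V → V → Option X} (fr : X) {rv : X → X} (hc : Col c rv) (x y : V) :
    ceq (cD c fr) x y = c x y := by
  unfold ceq cD
  split_ifs with h
  · exact ((hc.none_iff x y).2 h).symm
  · cases hcxy : c x y with
    | none => exact absurd ((hc.none_iff x y).1 hcxy) h
    | some t => rfl

theorem SetD_of_Stp [LinearOrder V] {𝔸 : Str σ V} {M : ℕ} {c : V → V → Option X} {fr : X}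
    {rv : X → X} (hs : Stp 𝔸 M c fr rv) : SetD 𝔸 M (cD c fr) fr rv := by
  refine ⟨hs.fin, ?_, hs.three, fun x y => cD_swap hs.col hs.free x y, cD_self hs.col, ?_, ?_⟩
  · obtain ⟨x, y, -⟩ := hs.col.surj fr
    exact ⟨x⟩
  · intro n d hd
    have hdd : ∀ i, d i i = fr := by
      intro i
      obtain ⟨v, hv⟩ := hd 1 (fun _ => i) (by have := hs.three; omega)
        (Subsingleton.strictMono _) (fun a b hab => absurd hab (by
          rw [Subsingleton.elim a b]; exact lt_irrefl _))
      have h1 := hv 0 0 le_rfl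
      rw [cD_self hs.col] at h1
      exact h1.symm
    obtain ⟨f, hf, hc⟩ := hs.uni n d (by
      intro m s hm hs' hfr
      obtain ⟨v, hv⟩ := hd m s hm hs' hfr
      refine ⟨v, fun i j hij => ?_⟩
      have h1 := hv i j hij.le
      have hne : v i ≠ v j := by
        intro he
        rw [he, cD_self hs.col] at h1
        exact hfr i j hij h1.symm
      rw [c_some hs.col fr hne, h1])
    refine ⟨f, hf, fun i j hij => ?_⟩
    rcases hij.lt_or_eq with h | h
    · simp [cD, hc i j h]
    · subst h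
      rw [cD_self hs.col, hdd]
  · intro l x y hx hxy
    refine hs.tyi l x y hx fun a b => ?_
    rw [← ceq_cD fr hs.col, ← ceq_cD fr hs.col (x a)]
    exact (hxy a b).symm

theorem PolMap_of_Olm [LinearOrder V] {𝔸 : Str σ V} {M : ℕ} {c : V → V → Option X} {fr : X}
    {rv : X → X} (hs : Stp 𝔸 M c fr rv) {h : (Fin 6 → V) → (Fin 6 → V) → Option X}
    (hh : Olm 𝔸 c h) : PolMap 𝔸 M (cD c fr) (Fin 6) h := by
  refine ⟨fun v => ?_, fun s v hv => ?_⟩
  · obtain ⟨ψ, -, hψ⟩ := hh.comb Unit (fun i _ => v i)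
    rw [← hψ () ()]
    exact (hs.col.none_iff _ _).2 rfl
  · obtain ⟨ψ, hψ, hc⟩ := hh.comb (Fin (arP σ M s)) (fun i a => v a i)
    refine ⟨ψ, ?_, fun a b => ?_⟩
    · cases s with
      | none => trivial
      | some l => exact hψ l (fun a => a) hv
    · rw [ceq_cD fr hs.col, hc]

theorem TInv_of_Olm [LinearOrder V] {𝔸 : Str σ V} {M : ℕ} {c : V → V → Option X} {fr : X}
    {rv : X → X} (hs : Stp 𝔸 M c fr rv) {h : (Fin 6 → V) → (Fin 6 → V) → Option X}
    (hh : Olm 𝔸 c h) : TInv (cD c fr) h := by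
  intro v w v' w' hST
  refine hh.tinv v w v' w' fun i j => ⟨(hST i j).1, ?_⟩
  rcases lt_trichotomy (Sum.elim v w i) (Sum.elim v w j) with h1 | h1 | h1
  · have h2 := (hST i j).1.1 h1
    rw [c_some hs.col fr h1.ne, c_some hs.col fr h2.ne, (hST i j).2 h1.le]
  · have h2 : Sum.elim v' w' i = Sum.elim v' w' j := by
      apply le_antisymm
      · exact not_lt.1 fun h' => by
          have := (hST j i).1.2 h'
          rw [h1] at this
          exact lt_irrefl _ this
      · exact not_lt.1 fun h' => by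
          have := (hST i j).1.2 h'
          rw [h1] at this
          exact lt_irrefl _ this
    rw [(hs.col.none_iff _ _).2 h1, (hs.col.none_iff _ _).2 h2]
  · have h2 := (hST j i).1.1 h1
    rw [c_some hs.col fr h1.ne', c_some hs.col fr h2.ne',
      cD_swap hs.col hs.free (Sum.elim v w j) (Sum.elim v w i), (hST j i).2 h1.le,
      ← cD_swap hs.col hs.free (Sum.elim v' w' j) (Sum.elim v' w' i)]

theorem not_Const [LinearOrder V] {𝔸 : Str σ V} {M : ℕ} {c : V → V → Option X} {fr : X}
    {rv : X → X} (hs : Stp 𝔸 M c fr rv) (h : ¬ ConstHom 𝔸) : ¬ Const 𝔸 := by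
  rintro ⟨a, ha⟩
  refine h fun l x hx v => hs.tyi l (fun _ => a) (fun _ => v) (ha l x hx) fun i j => ?_
  rw [(hs.col.none_iff _ _).2 rfl, (hs.col.none_iff _ _).2 rfl]

theorem CycPolD_of_Dd [LinearOrder V] {𝔸 : Str σ V} {M : ℕ} {c : V → V → Option X} {fr : X}
    {rv : X → X} (hs : Stp 𝔸 M c fr rv) {p : ℕ} [NeZero p] {f : (ZMod p → X) → X}
    (hf : Dd 𝔸 c p f) : CycPolD 𝔸 M (cD c fr) p f := by
  refine ⟨hf.1, fun s x hx hk rk hrk => ?_⟩
  let S : Setoid (Fin (arP σ M s)) := Setoid.ker (x 0)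
  have hr : ∀ a b, (Quotient.mk S a = Quotient.mk S b) ↔ x 0 a = x 0 b := fun a b =>
    ⟨fun h => Quotient.exact h, fun h => Quotient.sound h⟩
  obtain ⟨ψ, hi, hψ, hq⟩ := hf.2 (Quotient S)
    (Quotient.lift rk fun a b hab => (hrk a b).2 hab) (by
      intro u w
      induction u using Quotient.inductionOn with
      | _ a =>
        induction w using Quotient.inductionOn with
        | _ b =>
          intro hab
          exact (hr a b).2 ((hrk a b).1 hab))
    (fun i => Quotient.lift (x i) fun a b hab => (hk 0 i a b).1 hab) (by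
      intro i u w
      induction u using Quotient.inductionOn with
      | _ a =>
        induction w using Quotient.inductionOn with
        | _ b =>
          intro hab
          exact (hr a b).2 ((hk 0 i a b).2 hab))
  refine ⟨fun a => ψ (Quotient.mk S a), ?_, fun a b => ⟨?_, ?_⟩⟩
  · cases s with
    | none => trivial
    | some l => exact hψ l (fun a => Quotient.mk S a) hx
  · rw [hi.eq_iff, hr]
  · intro hab
    have hne : x 0 a ≠ x 0 b := fun he => by
      have := (hrk a b).2 he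
      omega
    have h1 := hq (Quotient.mk S a) (Quotient.mk S b) (fun i => cD c fr (x i a) (x i b)) hab
      (fun i => c_some hs.col fr fun he => hne ((hk 0 i a b).2 he))
    simp [cD, h1]

theorem CycPolD_all [LinearOrder V] {𝔸 : Str σ V} {M : ℕ} {c : V → V → Option X} {fr : X}
    {rv : X → X} (hs : Stp 𝔸 M c fr rv) (hf : DdAll 𝔸 c) (P₀ : ℕ) :
    ∃ (p : ℕ) (w : (ZMod p → X) → X), P₀ ≤ p ∧ Odd p ∧ CycPolD 𝔸 M (cD c fr) p w := by
  obtain ⟨N, hN⟩ := hf
  obtain ⟨p, hp, hpp⟩ := Nat.exists_infinite_primes (max (N + 1) (max P₀ 3))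
  have h1 : N + 1 ≤ p := le_trans (le_max_left _ _) hp
  have h2 : P₀ ≤ p := le_trans (le_trans (le_max_left _ _) (le_max_right _ _)) hp
  have h3 : 3 ≤ p := le_trans (le_trans (le_max_right _ _) (le_max_right _ _)) hp
  obtain ⟨f, hf⟩ := hN p hpp (by omega)
  have : NeZero p := ⟨hpp.ne_zero⟩
  exact ⟨p, f, h2, hpp.odd_of_ne_two (by omega), CycPolD_of_Dd hs hf⟩

/-- The patterns of the template are families in the sense of `FamR`. -/
theorem famR_of_famP [LinearOrder V] {𝔸 : Str σ V} {M : ℕ} {c : V → V → Option X} {fr : X}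
    {rv : X → X} (hs : Stp 𝔸 M c fr rv) (s : Option (Fin σ.m))
    (q : Fin (arP σ M s) × Fin (arP σ M s) → Ec X) (hq : FamP 𝔸 M c s q) :
    ∃ (k : Fin (arP σ M s) → ℕ) (x : Fin (arP σ M s) → V)
      (Q : Fin (arP σ M s) → Fin (arP σ M s) → X × X) (T : ℕ → ℕ → Bool) (T' : V → V → Bool),
      Tour T ∧ Tour T' ∧ FamR 𝔸 M (cD c fr) s x Q ∧ (∀ a b, x a = x b ↔ k a = k b) ∧
      ∀ a b, (q (a, b) = none ↔ k a = k b) ∧
        (k a ≠ k b → T' (x a) (x b) = T (k a) (k b) ∧ q (a, b) = some (Q a b, T (k a) (k b))) := by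
  obtain ⟨k, T, hT, hn, hb, hf⟩ := hq
  obtain ⟨x, hx, hxk, hxc⟩ := hf k (fun a b => Iff.rfl)
  let lab : V → ℕ := fun v => if h : ∃ a, x a = v then k (Classical.choose h) else 0
  have hlab : ∀ a, lab (x a) = k a := by
    intro a
    have h : ∃ b, x b = x a := ⟨a, rfl⟩
    have h1 : lab (x a) = k (Classical.choose h) := dif_pos h
    rw [h1]
    exact (hxk _ _).1 (Classical.choose_spec h)
  let Q : Fin (arP σ M s) → Fin (arP σ M s) → X × X :=
    fun a b => ((q (a, b)).getD ((fr, fr), false)).1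
  have hQ : ∀ a b, k a ≠ k b → q (a, b) = some (Q a b, T (k a) (k b)) := by
    intro a b hab
    have h1 : q (a, b) ≠ none := fun h => hab ((hn a b).1 h)
    obtain ⟨t, ht⟩ := Option.ne_none_iff_exists'.1 h1
    have h2 := hb a b t ht
    have h3 : Q a b = t.1 := by
      change ((q (a, b)).getD ((fr, fr), false)).1 = _
      rw [ht]
      rfl
    rw [h3, ← h2, ht]
  refine ⟨k, x, Q, T, fun v v' => if lab v ≠ lab v' then T (lab v) (lab v') else decide (v < v'),
    hT, ?_, ?_, hxk, fun a b => ⟨hn a b, fun hab => ⟨?_, hQ a b hab⟩⟩⟩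
  · intro v v' hne
    by_cases h : lab v = lab v'
    · simp only [h, ne_eq, not_true_eq_false, if_false]
      rw [← decide_not, decide_eq_decide, not_lt]
      exact ⟨fun h => h.le, fun h => lt_of_le_of_ne h (Ne.symm hne)⟩
    · simp only [ne_eq, h, not_false_eq_true, if_true, Ne.symm h]
      exact hT _ _ h
  · intro rk hrk
    obtain ⟨z, hz, hzk, hzc⟩ := hf rk (fun a b => (hrk a b).trans (hxk a b))
    refine ⟨z, hz, fun a b => ?_⟩
    rw [ceq_cD fr hs.col]
    by_cases hab : x a = x b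
    · rw [if_pos hab]
      exact (hs.col.none_iff _ _).2 ((hzk a b).2 ((hxk a b).1 hab))
    · rw [if_neg hab]
      have h5 := hzc a b (Q a b, T (k a) (k b)) (hQ a b fun h => hab ((hxk a b).2 h))
      exact h5
  · change (if lab (x a) ≠ lab (x b) then T (lab (x a)) (lab (x b)) else _) = _
    rw [hlab, hlab, if_pos hab]

/-- The polymorphism of the template. -/
def gE (F : Bool → Bool → Bool → X × X → X × X → X) (lam rho : Bool → Bool → X × X → X) :
    Ec X → Ec X → Ec X
  | none, none => none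
  | none, some t => some ((lam true t.2 t.1, lam false t.2 t.1), t.2)
  | some t, none => some ((rho true t.2 t.1, rho false t.2 t.1), t.2)
  | some t, some t' => some ((F true t.2 t'.2 t.1 t'.1, F false t.2 t'.2 t.1 t'.1), t.2)

theorem poly_of_FullFam [LinearOrder V] {𝔸 : Str σ V} {M : ℕ} {c : V → V → Option X} {fr : X}
    {rv : X → X} (hs : Stp 𝔸 M c fr rv) {F : Bool → Bool → Bool → X × X → X × X → X}
    {lam rho : Bool → Bool → X × X → X} (hF : FullFam 𝔸 M (cD c fr) F lam rho) :
    IsPoly (tpl 𝔸 M c) (tpl 𝔸 M c) (fun z : Fin 2 → Ec X => gE F lam rho (z 0) (z 1)) := by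
  refine (Pool.Agent.H68.GC.poly_strOn _ _ _).2 ?_
  intro s q hq
  obtain ⟨k, x, Q, T, U, hT, hU, hx, hxk, hqa⟩ := famR_of_famP hs s (q 0) (hq 0)
  obtain ⟨k', x', Q', T', U', hT', hU', hx', hxk', hqa'⟩ := famR_of_famP hs s (q 1) (hq 1)
  let kk : Fin (arP σ M s) → ℕ := fun a => Nat.pair (k a) (k' a)
  have hkk : ∀ a b, kk a = kk b ↔ k a = k b ∧ k' a = k' b := by
    intro a b
    exact Nat.pair_eq_pair
  let TT : ℕ → ℕ → Bool := fun n m => if n.unpair.1 ≠ m.unpair.1 then T n.unpair.1 m.unpair.1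
    else T' n.unpair.2 m.unpair.2
  have hTT : ∀ a b, TT (kk a) (kk b) =
      if k a ≠ k b then T (k a) (k b) else T' (k' a) (k' b) := by
    intro a b
    simp only [TT, kk, Nat.unpair_pair]
  refine ⟨kk, TT, ?_, ?_, ?_, ?_⟩
  · intro n m hne
    by_cases h : n.unpair.1 = m.unpair.1
    · have h2 : n.unpair.2 ≠ m.unpair.2 := by
        intro h2
        apply hne
        rw [← Nat.pair_unpair n, ← Nat.pair_unpair m, h, h2]
      change (if m.unpair.1 ≠ n.unpair.1 then _ else _) =
        !(if n.unpair.1 ≠ m.unpair.1 then _ else _)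
      rw [if_neg (fun h' => h' h.symm), if_neg (fun h' => h' h)]
      exact hT' _ _ h2
    · change (if m.unpair.1 ≠ n.unpair.1 then _ else _) =
        !(if n.unpair.1 ≠ m.unpair.1 then _ else _)
      rw [if_pos h, if_pos (Ne.symm h)]
      exact hT _ _ h
  · intro a b
    change gE F lam rho (q 0 (a, b)) (q 1 (a, b)) = none ↔ _
    rw [hkk, ← (hqa a b).1, ← (hqa' a b).1]
    cases q 0 (a, b) <;> cases q 1 (a, b) <;> simp [gE]
  · intro a b t ht
    change gE F lam rho (q 0 (a, b)) (q 1 (a, b)) = some t at ht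
    rw [hTT]
    by_cases h0 : k a = k b
    · rw [if_neg (fun h => h h0)]
      by_cases h1 : k' a = k' b
      · rw [(hqa a b).1.2 h0, (hqa' a b).1.2 h1] at ht
        exact absurd ht (by simp [gE])
      · rw [(hqa a b).1.2 h0, ((hqa' a b).2 h1).2] at ht
        rw [← Option.some_injective _ ht]
    · rw [if_pos h0]
      by_cases h1 : k' a = k' b
      · rw [((hqa a b).2 h0).2, (hqa' a b).1.2 h1] at ht
        rw [← Option.some_injective _ ht]
      · rw [((hqa a b).2 h0).2, ((hqa' a b).2 h1).2] at ht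
        rw [← Option.some_injective _ ht]
  · intro rk hrk
    obtain ⟨z, hz, hzz⟩ := hF s x x' Q Q' U U' hU hU' hx hx' rk (fun a b => by
      rw [hrk, hkk, hxk, hxk'])
    have hz2 := fun a b => (ceq_cD fr hs.col (z a) (z b)).symm.trans (hzz a b)
    refine ⟨z, hz, ?_, ?_⟩
    · intro a b
      rw [← hs.col.none_iff, hz2 a b, hkk, ← hxk, ← hxk']
      by_cases h0 : x a = x b <;> by_cases h1 : x' a = x' b <;> simp [h0, h1, combF]
    · intro a b t ht
      change gE F lam rho (q 0 (a, b)) (q 1 (a, b)) = some t at ht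
      rw [hz2 a b]
      have hif : ∀ u v : X, (if decide (rk a < rk b) = true then u else v) =
          if rk a < rk b then u else v := by
        intro u v
        simp
      by_cases h0 : k a = k b
      · by_cases h1 : k' a = k' b
        · rw [(hqa a b).1.2 h0, (hqa' a b).1.2 h1] at ht
          exact absurd ht (by simp [gE])
        · rw [(hqa a b).1.2 h0, ((hqa' a b).2 h1).2] at ht
          rw [if_pos ((hxk a b).2 h0), if_neg (fun h => h1 ((hxk' a b).1 h)),
            ((hqa' a b).2 h1).1, ← Option.some_injective _ ht]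
          by_cases hr : rk a < rk b
          · simp [hr, combF]
          · simp [hr, combF]
      · by_cases h1 : k' a = k' b
        · rw [((hqa a b).2 h0).2, (hqa' a b).1.2 h1] at ht
          rw [if_pos ((hxk' a b).2 h1), if_neg (fun h => h0 ((hxk a b).1 h)),
            ((hqa a b).2 h0).1, ← Option.some_injective _ ht]
          by_cases hr : rk a < rk b
          · simp [hr, combF]
          · simp [hr, combF]
        · rw [((hqa a b).2 h0).2, ((hqa' a b).2 h1).2] at ht
          rw [if_neg (fun h => h1 ((hxk' a b).1 h)), if_neg (fun h => h0 ((hxk a b).1 h)),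
            ((hqa a b).2 h0).1, ((hqa' a b).2 h1).1, ← Option.some_injective _ ht]
          by_cases hr : rk a < rk b
          · simp [hr, combF]
          · simp [hr, combF]

end glue

theorem glue_GPO (hINJ : T_INJ) (hCNG : T_CNG) (hTRF : T_TRF) (hLMT : T_LMT)
    (hLIN : T_LIN) (hTO1 : T_TO1) (hTO2 : T_TO2) (hNR3 : T_NR3) :
    Pool.Agent.H57.EQD.T_GPO := by
  intro σ V X _ 𝔸 M c fr rv hs h hh hC hD
  have hE := SetD_of_Stp hs
  have := hs.fin
  obtain ⟨F, lam, rho, hF⟩ := asm_FUL hINJ hCNG hTRF hLMT hLIN hTO1 hTO2 hE (not_Const hs hC)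
    (hNR3 V X (cD c fr) _ M hE.univ) h (PolMap_of_Olm hs hh) (TInv_of_Olm hs hh) hh.exact
    (CycPolD_all hs hD)
  refine ⟨_, poly_of_FullFam hs hF, fun z => ?_⟩
  rw [Fin.forall_fin_two]
  cases z 0 <;> cases z 1 <;> simp [gE]

theorem glue_NNC (hNC : T_NC) : Pool.Agent.H57.EQD.T_NNC := by
  intro σ V X _ 𝔸 M c fr rv hs h hh hC z z' hz
  exact hNC σ V X 𝔸 M (cD c fr) fr rv (SetD_of_Stp hs) (not_Const hs hC) h (PolMap_of_Olm hs hh)
    (TInv_of_Olm hs hh) z z' hz

theorem glue_NOL (hHHH : T_HHH) (hRLZ : T_RLZ) (hNR3 : T_NR3) :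
    Pool.Agent.H57.EQD.T_NOL := by
  intro σ V X _ 𝔸 M c fr rv hs hO hK
  have hE := SetD_of_Stp hs
  have := hs.fin
  obtain ⟨h, hp, ht, hex⟩ := hHHH σ V X 𝔸 M (cD c fr) fr rv hE hs.cnt hO
    (hNR3 V X (cD c fr) _ M hE.univ) hK
  refine ⟨h, ?_, hex, ?_⟩
  · intro v w v' w' hS
    refine ht v w v' w' fun i j => ⟨(hS i j).1, fun _ => ?_⟩
    simp only [cD, (hS i j).2]
  · intro W _ G
    obtain ⟨ψ, hψ⟩ := hRLZ σ V X 𝔸 M (cD c fr) fr rv hE W
      (fun u w => h (fun i => G i u) (fun i => G i w)) (by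
      intro p
      obtain ⟨x, -, hx⟩ := hp.rel none (fun a i => G i (p a)) (fun _ => trivial)
      exact ⟨x, hx⟩)
    refine ⟨ψ, ?_, fun u w => ?_⟩
    · intro l z hz
      obtain ⟨x, hx, hx'⟩ := hp.rel (some l) (fun a i => G i (z a)) hz
      refine hE.typ l x _ hx fun a b => ?_
      rw [hx' a b, hψ]
    · rw [← hψ u w, ceq_cD fr hs.col]

end Pool.Agent.H44.EQD
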